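import Pool.Agent.Y986.GS.Det

/-!
First and second order conditions at a local minimum of the synchronization energy, and the
deterministic synchronization theorem.
-/

namespace Pool.Agent.Y986.GS

open Finset Filter Topology

/-- the energy -/
noncomputable def en {n : ℕ} (A : Fin n → Fin n → ℝ) (φ : Fin n → ℝ) : ℝ :=
  (1 / 2 : ℝ) * ∑ i : Fin n, ∑ j : Fin n, A i j * (1 - Real.cos (φ i - φ j))

theorem tendsto_line {n : ℕ} (θ v : Fin n → ℝ) :
    Tendsto (fun t : ℝ => θ + t • v) (𝓝 0) (𝓝 θ) := by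
  have h : Continuous (fun t : ℝ => θ + t • v) := by fun_prop
  have := h.tendsto 0
  simpa using this

theorem first_order {n : ℕ} (A : Fin n → Fin n → ℝ) (θ : Fin n → ℝ) (h : IsLocalMin (en A) θ)
    (v : Fin n → ℝ) : ∑ i, ∑ j, A i j * (Real.sin (θ i - θ j) * (v i - v j)) = 0 := by
  have hg : IsLocalMin (fun t : ℝ => en A (θ + t • v)) 0 := by
    have h1 : ∀ᶠ t in 𝓝 (0 : ℝ), en A θ ≤ en A (θ + t • v) := (tendsto_line θ v).eventually h
    filter_upwards [h1] with t ht
    simpa using ht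
  have hd : HasDerivAt (fun t : ℝ => en A (θ + t • v))
      ((1 / 2 : ℝ) * ∑ i, ∑ j, A i j * (Real.sin (θ i - θ j) * (v i - v j))) 0 := by
    unfold en
    apply HasDerivAt.const_mul
    apply HasDerivAt.fun_sum
    intro i _
    apply HasDerivAt.fun_sum
    intro j _
    apply HasDerivAt.const_mul
    have h1 : HasDerivAt (fun t : ℝ => (θ + t • v) i - (θ + t • v) j) (v i - v j) 0 := by
      have e : (fun t : ℝ => (θ + t • v) i - (θ + t • v) j) =
          fun t : ℝ => (θ i - θ j) + t * (v i - v j) := by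
        funext t
        simp only [Pi.add_apply, Pi.smul_apply, smul_eq_mul]
        ring
      rw [e]
      have := ((hasDerivAt_id (0 : ℝ)).mul_const (v i - v j)).const_add (θ i - θ j)
      simpa using this
    have h2 := h1.cos.const_sub 1
    have e2 : (θ + (0 : ℝ) • v) i - (θ + (0 : ℝ) • v) j = θ i - θ j := by simp
    rw [e2] at h2
    have e3 : -(-Real.sin (θ i - θ j) * (v i - v j)) = Real.sin (θ i - θ j) * (v i - v j) := by
      ring
    rw [e3] at h2
    exact h2
  have h0 := hg.hasDerivAt_eq_zero hd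
  linarith

theorem second_order {n : ℕ} (A : Fin n → Fin n → ℝ) (θ : Fin n → ℝ) (h : IsLocalMin (en A) θ)
    (v : Fin n → ℝ) :
    0 ≤ ∑ i, ∑ j, A i j * (Real.cos (θ i - θ j) * (v i - v j) ^ 2) := by
  set Q := ∑ i, ∑ j, A i j * (Real.cos (θ i - θ j) * (v i - v j) ^ 2) with hQ
  set M := ∑ i, ∑ j, |A i j * Real.cos (θ i - θ j)| * ((v i - v j) ^ 4 * (5 / 96)) with hM
  have h1 : ∀ᶠ t in 𝓝 (0 : ℝ), en A θ ≤ en A (θ + t • v) := (tendsto_line θ v).eventually h
  have h2 : ∀ᶠ t in 𝓝 (0 : ℝ), en A θ ≤ en A (θ + (-t) • v) := by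
    have hneg : Tendsto (fun t : ℝ => -t) (𝓝 0) (𝓝 0) := by
      have := (continuous_neg (G := ℝ)).tendsto 0
      simpa using this
    exact hneg.eventually h1
  have h3 : ∀ᶠ t in 𝓝 (0 : ℝ), ∀ i j, |t * (v i - v j)| ≤ 1 := by
    rw [Filter.eventually_all]
    intro i
    rw [Filter.eventually_all]
    intro j
    have hc : Continuous (fun t : ℝ => |t * (v i - v j)|) := by fun_prop
    have := hc.tendsto 0
    simp only [zero_mul, abs_zero] at this
    exact (this.eventually (Iic_mem_nhds (show (0 : ℝ) < 1 by norm_num)))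
  have key : ∀ᶠ t in 𝓝[>] (0 : ℝ), 0 ≤ Q / 2 + t ^ 2 * M := by
    have hall := h1.and (h2.and h3)
    filter_upwards [nhdsWithin_le_nhds hall, self_mem_nhdsWithin] with t ht ht0
    obtain ⟨t1, t2, t3⟩ := ht
    have ht0' : (0 : ℝ) < t := ht0
    have e1 : en A (θ + t • v) + en A (θ + (-t) • v) - 2 * en A θ =
        ∑ i, ∑ j, A i j * (Real.cos (θ i - θ j) * (1 - Real.cos (t * (v i - v j)))) := by
      unfold en
      rw [← mul_add, ← mul_assoc, mul_comm (2 : ℝ) (1 / 2), mul_assoc, ← mul_sub,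
        ← Finset.sum_add_distrib, Finset.mul_sum, ← Finset.sum_sub_distrib, Finset.mul_sum]
      apply Finset.sum_congr rfl
      intro i _
      rw [← Finset.sum_add_distrib, Finset.mul_sum, ← Finset.sum_sub_distrib, Finset.mul_sum]
      apply Finset.sum_congr rfl
      intro j _
      have a1 : (θ + t • v) i - (θ + t • v) j = (θ i - θ j) + t * (v i - v j) := by
        simp only [Pi.add_apply, Pi.smul_apply, smul_eq_mul]; ring
      have a2 : (θ + (-t) • v) i - (θ + (-t) • v) j = (θ i - θ j) - t * (v i - v j) := by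
        simp only [Pi.add_apply, Pi.smul_apply, smul_eq_mul]; ring
      rw [a1, a2, Real.cos_add (θ i - θ j) (t * (v i - v j)),
        Real.cos_sub (θ i - θ j) (t * (v i - v j))]
      ring
    have e2 : 0 ≤ ∑ i, ∑ j, A i j * (Real.cos (θ i - θ j) * (1 - Real.cos (t * (v i - v j)))) := by
      rw [← e1]; linarith
    have e3 : ∑ i, ∑ j, A i j * (Real.cos (θ i - θ j) * (1 - Real.cos (t * (v i - v j)))) ≤
        t ^ 2 * (Q / 2) + t ^ 4 * M := by
      rw [hQ, hM, Finset.sum_div, Finset.mul_sum, Finset.mul_sum, ← Finset.sum_add_distrib]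
      apply Finset.sum_le_sum
      intro i _
      rw [Finset.sum_div, Finset.mul_sum, Finset.mul_sum, ← Finset.sum_add_distrib]
      apply Finset.sum_le_sum
      intro j _
      set x := t * (v i - v j) with hx
      have hb := Real.cos_bound (t3 i j)
      have hb' : |(1 - Real.cos x) - x ^ 2 / 2| ≤ x ^ 4 * (5 / 96) := by
        have : (1 - Real.cos x) - x ^ 2 / 2 = -(Real.cos x - (1 - x ^ 2 / 2)) := by ring
        rw [this, abs_neg]
        have h4 : |x| ^ 4 = x ^ 4 := by
          have : |x| ^ 4 = (|x| ^ 2) ^ 2 := by ring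
          rw [this, sq_abs]; ring
        rw [← h4]
        exact hb
      have hb2 : A i j * Real.cos (θ i - θ j) * ((1 - Real.cos x) - x ^ 2 / 2) ≤
          |A i j * Real.cos (θ i - θ j)| * (x ^ 4 * (5 / 96)) := by
        refine (le_abs_self _).trans ?_
        rw [abs_mul]
        exact mul_le_mul_of_nonneg_left hb' (abs_nonneg _)
      have x2 : x ^ 2 = t ^ 2 * (v i - v j) ^ 2 := by rw [hx]; ring
      have x4 : x ^ 4 = t ^ 4 * (v i - v j) ^ 4 := by rw [hx]; ring
      rw [x2, x4] at hb2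
      nlinarith [hb2]
    have e4 : 0 ≤ t ^ 2 * (Q / 2 + t ^ 2 * M) := by nlinarith [e2, e3]
    exact nonneg_of_mul_nonneg_right e4 (by positivity)
  have hlim : Tendsto (fun t : ℝ => Q / 2 + t ^ 2 * M) (𝓝[>] 0) (𝓝 (Q / 2)) := by
    have hc : Continuous (fun t : ℝ => Q / 2 + t ^ 2 * M) := by fun_prop
    have := (hc.tendsto 0).mono_left (nhdsWithin_le_nhds (s := Set.Ioi 0))
    simpa using this
  have := ge_of_tendsto hlim key
  linarith

theorem row_first {n : ℕ} (A : Fin n → Fin n → ℝ) (hsym : ∀ i j, A i j = A j i)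
    (F : Fin n → Fin n → ℝ) (hF : ∀ i j, F i j = - F j i) (k : Fin n) :
    ∑ i, ∑ j, A i j * (F i j * ((Pi.single k 1 : Fin n → ℝ) i - (Pi.single k 1 : Fin n → ℝ) j)) =
      2 * ∑ j, A k j * F k j := by
  have h : ∀ i j, A i j * (F i j * ((Pi.single k 1 : Fin n → ℝ) i -
      (Pi.single k 1 : Fin n → ℝ) j)) =
      (if i = k then A k j * F k j else 0) + (if j = k then A k i * F k i else 0) := by
    intro i j
    rw [Pi.single_apply, Pi.single_apply]
    by_cases hi : i = k <;> by_cases hj : j = k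
    · have h0 : F k k = 0 := by have := hF k k; linarith
      simp [hi, hj, h0]
    · subst hi; simp [hj]
    · subst hj
      simp only [hi, if_false, if_true]
      rw [hF i j, hsym i j]
      ring
    · simp [hi, hj]
  simp only [h, Finset.sum_add_distrib]
  have h1 : ∑ x : Fin n, ∑ x_1 : Fin n, (if x = k then A k x_1 * F k x_1 else 0) =
      ∑ j, A k j * F k j := by
    rw [Finset.sum_comm]
    exact Finset.sum_congr rfl (fun j _ => by rw [Finset.sum_ite_eq' Finset.univ k]; simp)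
  have h2 : ∑ x : Fin n, ∑ x_1 : Fin n, (if x_1 = k then A k x * F k x else 0) =
      ∑ j, A k j * F k j := by
    exact Finset.sum_congr rfl (fun j _ => by rw [Finset.sum_ite_eq' Finset.univ k]; simp)
  rw [h1, h2]
  ring

theorem row_second {n : ℕ} (A : Fin n → Fin n → ℝ) (hsym : ∀ i j, A i j = A j i)
    (hdiag : ∀ i, A i i = 0)
    (F : Fin n → Fin n → ℝ) (hF : ∀ i j, F i j = F j i) (k : Fin n) :
    ∑ i, ∑ j, A i j * (F i j * ((Pi.single k 1 : Fin n → ℝ) i -
      (Pi.single k 1 : Fin n → ℝ) j) ^ 2) = 2 * ∑ j, A k j * F k j := by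
  have h : ∀ i j, A i j * (F i j * ((Pi.single k 1 : Fin n → ℝ) i -
      (Pi.single k 1 : Fin n → ℝ) j) ^ 2) =
      (if i = k then A k j * F k j else 0) + (if j = k then A k i * F k i else 0) := by
    intro i j
    rw [Pi.single_apply, Pi.single_apply]
    by_cases hi : i = k <;> by_cases hj : j = k
    · simp [hi, hj, hdiag]
    · subst hi; simp [hj]
    · subst hj
      simp only [hi, if_false, if_true]
      rw [hF i j, hsym i j]
      ring
    · simp [hi, hj]
  simp only [h, Finset.sum_add_distrib]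
  have h1 : ∑ x : Fin n, ∑ x_1 : Fin n, (if x = k then A k x_1 * F k x_1 else 0) =
      ∑ j, A k j * F k j := by
    rw [Finset.sum_comm]
    exact Finset.sum_congr rfl (fun j _ => by rw [Finset.sum_ite_eq' Finset.univ k]; simp)
  have h2 : ∑ x : Fin n, ∑ x_1 : Fin n, (if x_1 = k then A k x * F k x else 0) =
      ∑ j, A k j * F k j := by
    exact Finset.sum_congr rfl (fun j _ => by rw [Finset.sum_ite_eq' Finset.univ k]; simp)
  rw [h1, h2]
  ring

/-- **Deterministic synchronization.** -/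
theorem sync {n : ℕ} (A : Fin n → Fin n → ℝ) (p N κ : ℝ) (hp : 0 < p) (hκ : 0 < κ)
    (hκ2 : κ ≤ 1 / 2) (hn : 12 ≤ κ * n) (hN0 : 0 ≤ N) (hN : N ≤ κ / 30 * p * n)
    (hdiag : ∀ i, A i i = 0) (hsym : ∀ i j, A i j = A j i)
    (hW : ∀ x : Fin n → ℝ, ∑ i, (Wx A p x i) ^ 2 ≤ N ^ 2 * ∑ j, x j ^ 2)
    (hD : ∀ i, κ * p * n ≤ ∑ j, A i j) (θ : Fin n → ℝ) (h : IsLocalMin (en A) θ) :
    ∀ i j, ∃ k : ℤ, θ i - θ j = 2 * Real.pi * (k : ℝ) := by
  set R := ∑ i, Real.cos (θ i) with hR
  set I := ∑ i, Real.sin (θ i) with hI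
  obtain ⟨x, y, hxy, h0, hr⟩ : ∃ x y : ℝ, x ^ 2 + y ^ 2 = 1 ∧ I * x - R * y = 0 ∧
      0 ≤ R * x + I * y := by
    by_cases hz : R ^ 2 + I ^ 2 = 0
    · have hR0 : R = 0 := by nlinarith [sq_nonneg R, sq_nonneg I]
      have hI0 : I = 0 := by nlinarith [sq_nonneg R, sq_nonneg I]
      exact ⟨1, 0, by norm_num, by rw [hI0]; ring, by rw [hR0]; simp⟩
    · have hpos : 0 < R ^ 2 + I ^ 2 := lt_of_le_of_ne (by positivity) (Ne.symm hz)
      have hs : 0 < Real.sqrt (R ^ 2 + I ^ 2) := Real.sqrt_pos.2 hpos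
      have hs2 : Real.sqrt (R ^ 2 + I ^ 2) ^ 2 = R ^ 2 + I ^ 2 := Real.sq_sqrt hpos.le
      refine ⟨R / Real.sqrt (R ^ 2 + I ^ 2), I / Real.sqrt (R ^ 2 + I ^ 2), ?_, ?_, ?_⟩
      · rw [div_pow, div_pow, hs2, ← add_div, div_self hz]
      · field_simp
        ring
      · have : R * (R / Real.sqrt (R ^ 2 + I ^ 2)) + I * (I / Real.sqrt (R ^ 2 + I ^ 2)) =
            (R ^ 2 + I ^ 2) / Real.sqrt (R ^ 2 + I ^ 2) := by
          field_simp
        rw [this]
        positivity
  set c : Fin n → ℝ := fun i => Real.cos (θ i) * x + Real.sin (θ i) * y with hc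
  set s : Fin n → ℝ := fun i => Real.sin (θ i) * x - Real.cos (θ i) * y with hs
  have hg : ∀ i j, c i * c j + s i * s j = Real.cos (θ i - θ j) := by
    intro i j
    rw [Real.cos_sub]
    simp only [hc, hs]
    linear_combination (Real.cos (θ i) * Real.cos (θ j) + Real.sin (θ i) * Real.sin (θ j)) * hxy
  have hg' : ∀ i j, s i * c j - c i * s j = Real.sin (θ i - θ j) := by
    intro i j
    rw [Real.sin_sub]
    simp only [hc, hs]
    linear_combination (Real.sin (θ i) * Real.cos (θ j) - Real.cos (θ i) * Real.sin (θ j)) * hxy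
  have hcs : ∀ i, c i ^ 2 + s i ^ 2 = 1 := by
    intro i
    have := hg i i
    rw [sub_self, Real.cos_zero] at this
    linarith
  have hssum : ∑ i, s i = 0 := by
    simp only [hs, Finset.sum_sub_distrib, ← Finset.sum_mul]
    rw [← hR, ← hI]
    exact h0
  have hcsum : 0 ≤ ∑ i, c i := by
    simp only [hc, Finset.sum_add_distrib, ← Finset.sum_mul]
    rw [← hR, ← hI]
    exact hr
  have h1 : ∀ i, ∑ j, A i j * (s i * c j - c i * s j) = 0 := by
    intro i
    have h1' := first_order A θ h (Pi.single i 1)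
    rw [row_first A hsym (fun a b => Real.sin (θ a - θ b))
      (fun a b => by rw [← Real.sin_neg]; ring_nf) i] at h1'
    simp only [hg']
    linarith
  have h2 : ∀ i, 0 ≤ ∑ j, A i j * (c i * c j + s i * s j) := by
    intro i
    have h2' := second_order A θ h (Pi.single i 1)
    rw [row_second A hsym hdiag (fun a b => Real.cos (θ a - θ b))
      (fun a b => by rw [← Real.cos_neg]; ring_nf) i] at h2'
    simp only [hg]
    linarith
  have h3 : 0 ≤ ∑ i, ∑ j, A i j *
      ((c i * c j + s i * s j) * (1 - (c i * c j + s i * s j))) := by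
    have a1 := second_order A θ h (fun i => Real.cos (θ i))
    have a2 := second_order A θ h (fun i => Real.sin (θ i))
    have e : ∑ i, ∑ j, A i j * (Real.cos (θ i - θ j) * (Real.cos (θ i) - Real.cos (θ j)) ^ 2) +
        ∑ i, ∑ j, A i j * (Real.cos (θ i - θ j) * (Real.sin (θ i) - Real.sin (θ j)) ^ 2) =
        2 * ∑ i, ∑ j, A i j *
          ((c i * c j + s i * s j) * (1 - (c i * c j + s i * s j))) := by
      rw [← Finset.sum_add_distrib, Finset.mul_sum]
      apply Finset.sum_congr rfl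
      intro i _
      rw [← Finset.sum_add_distrib, Finset.mul_sum]
      apply Finset.sum_congr rfl
      intro j _
      rw [hg, Real.cos_sub]
      have c1 := Real.sin_sq_add_cos_sq (θ i)
      have c2 := Real.sin_sq_add_cos_sq (θ j)
      linear_combination (A i j * (Real.cos (θ i) * Real.cos (θ j) +
        Real.sin (θ i) * Real.sin (θ j))) * (c1 + c2)
    linarith
  have hfin := core A p N κ hp hκ hκ2 hn hN0 hN hdiag hW hD c s hcs hssum hcsum h1 h2 h3
  intro i j
  have hone : Real.cos (θ i - θ j) = 1 := by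
    rw [← hg i j, (hfin i).1, (hfin i).2, (hfin j).1]
    ring
  rw [Real.cos_eq_one_iff] at hone
  obtain ⟨k, hk⟩ := hone
  exact ⟨k, by rw [← hk]; ring⟩

end Pool.Agent.Y986.GS
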