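import Mathlib

/-!
Deterministic core of the global synchrony theorem for signed coupling matrices.
-/

namespace Pool.Agent.Y986.GS

open Finset

/-- the action of the centred matrix -/
noncomputable def Wx {n : ℕ} (A : Fin n → Fin n → ℝ) (p : ℝ) (x : Fin n → ℝ) (i : Fin n) : ℝ :=
  ∑ j, (if i = j then 0 else (A i j - p)) * x j

theorem sum_A_mul {n : ℕ} (A : Fin n → Fin n → ℝ) (p : ℝ) (hdiag : ∀ i, A i i = 0)
    (x : Fin n → ℝ) (i : Fin n) :
    ∑ j, A i j * x j = p * (∑ j, x j - x i) + Wx A p x i := by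
  unfold Wx
  have h : ∀ j, A i j * x j = (if i = j then 0 else (A i j - p)) * x j + p * x j -
      (if i = j then p * x j else 0) := by
    intro j
    by_cases hij : i = j
    · subst hij
      simp [hdiag]
    · simp only [hij, if_false]
      ring
  rw [Finset.sum_congr rfl (fun j _ => h j), Finset.sum_sub_distrib, Finset.sum_add_distrib,
    Finset.sum_ite_eq, ← Finset.mul_sum]
  simp only [Finset.mem_univ, if_true]
  ring

theorem quad_le {n : ℕ} (A : Fin n → Fin n → ℝ) (p N : ℝ) (hN0 : 0 ≤ N)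
    (hW : ∀ x : Fin n → ℝ, ∑ i, (Wx A p x i) ^ 2 ≤ N ^ 2 * ∑ j, x j ^ 2) (x : Fin n → ℝ) :
    |∑ i, x i * Wx A p x i| ≤ N * ∑ j, x j ^ 2 := by
  have h0 : 0 ≤ ∑ j, x j ^ 2 := Finset.sum_nonneg (fun j _ => sq_nonneg _)
  apply abs_le_of_sq_le_sq _ (mul_nonneg hN0 h0)
  calc (∑ i, x i * Wx A p x i) ^ 2 ≤ (∑ i, x i ^ 2) * ∑ i, (Wx A p x i) ^ 2 :=
        Finset.sum_mul_sq_le_sq_mul_sq _ _ _
    _ ≤ (∑ i, x i ^ 2) * (N ^ 2 * ∑ j, x j ^ 2) := by
        exact mul_le_mul_of_nonneg_left (hW x) h0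
    _ = (N * ∑ j, x j ^ 2) ^ 2 := by ring

/-- double sum of the matrix against a product -/
theorem sum_sum {n : ℕ} (A : Fin n → Fin n → ℝ) (p : ℝ) (hdiag : ∀ i, A i i = 0)
    (x : Fin n → ℝ) :
    ∑ i, ∑ j, A i j * (x i * x j) =
      p * ((∑ j, x j) ^ 2 - ∑ j, x j ^ 2) + ∑ i, x i * Wx A p x i := by
  have h : ∀ i, ∑ j, A i j * (x i * x j) = x i * (p * (∑ j, x j - x i) + Wx A p x i) := by
    intro i
    rw [← sum_A_mul A p hdiag x i, Finset.mul_sum]
    exact Finset.sum_congr rfl (fun j _ => by ring)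
  rw [Finset.sum_congr rfl (fun i _ => h i)]
  have h' : ∀ i, x i * (p * (∑ j, x j - x i) + Wx A p x i) =
      p * (∑ j, x j) * x i - p * x i ^ 2 + x i * Wx A p x i := by
    intro i; ring
  rw [Finset.sum_congr rfl (fun i _ => h' i), Finset.sum_add_distrib, Finset.sum_sub_distrib,
    ← Finset.mul_sum, ← Finset.mul_sum]
  ring

theorem core {n : ℕ} (A : Fin n → Fin n → ℝ) (p N κ : ℝ) (hp : 0 < p) (hκ : 0 < κ)
    (hκ2 : κ ≤ 1 / 2) (hn : 12 ≤ κ * n) (hN0 : 0 ≤ N) (hN : N ≤ κ / 30 * p * n)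
    (hdiag : ∀ i, A i i = 0)
    (hW : ∀ x : Fin n → ℝ, ∑ i, (Wx A p x i) ^ 2 ≤ N ^ 2 * ∑ j, x j ^ 2)
    (hD : ∀ i, κ * p * n ≤ ∑ j, A i j)
    (c s : Fin n → ℝ) (hcs : ∀ i, c i ^ 2 + s i ^ 2 = 1) (hs : ∑ i, s i = 0)
    (hc : 0 ≤ ∑ i, c i)
    (h1 : ∀ i, ∑ j, A i j * (s i * c j - c i * s j) = 0)
    (h2 : ∀ i, 0 ≤ ∑ j, A i j * (c i * c j + s i * s j))
    (h3 : 0 ≤ ∑ i, ∑ j, A i j *
      ((c i * c j + s i * s j) * (1 - (c i * c j + s i * s j)))) :
    ∀ i, c i = 1 ∧ s i = 0 := by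
  classical
  have hn0 : (24 : ℝ) ≤ n := by nlinarith
  have hnpos : (0 : ℝ) < n := by linarith
  have hpn : 0 < p * n := mul_pos hp hnpos
  -- sums of squares
  have hcsum : ∑ i, c i ^ 2 + ∑ i, s i ^ 2 = n := by
    rw [← Finset.sum_add_distrib, Finset.sum_congr rfl (fun i _ => hcs i)]
    simp
  have hc2 : 0 ≤ ∑ i, c i ^ 2 := Finset.sum_nonneg (fun j _ => sq_nonneg _)
  have hs2 : 0 ≤ ∑ i, s i ^ 2 := Finset.sum_nonneg (fun j _ => sq_nonneg _)
  -- Step 1: the order parameter is large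
  have hr : (n : ℝ) / 2 ≤ ∑ i, c i := by
    set C : Fin n → ℝ := fun i => c i ^ 2 - s i ^ 2 with hC
    set S : Fin n → ℝ := fun i => 2 * c i * s i with hS
    have hCS : ∀ i, C i ^ 2 + S i ^ 2 = 1 := by
      intro i
      have := hcs i
      simp only [hC, hS]
      have e : (c i ^ 2 - s i ^ 2) ^ 2 + (2 * c i * s i) ^ 2 = (c i ^ 2 + s i ^ 2) ^ 2 := by ring
      rw [e, this]; norm_num
    have hCSsum : ∑ i, C i ^ 2 + ∑ i, S i ^ 2 = n := by
      rw [← Finset.sum_add_distrib, Finset.sum_congr rfl (fun i _ => hCS i)]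
      simp
    have hterm : ∀ i j, (c i * c j + s i * s j) * (1 - (c i * c j + s i * s j)) =
        c i * c j + s i * s j - 1 / 2 * (1 * 1) - 1 / 2 * (C i * C j) - 1 / 2 * (S i * S j) := by
      intro i j
      simp only [hC, hS]
      have ei := hcs i
      have ej := hcs j
      have e1 : (c i ^ 2 + s i ^ 2) * (c j ^ 2 + s j ^ 2) = 1 := by rw [ei, ej]; norm_num
      linear_combination (-(1 / 2)) * e1
    have hexp : ∑ i, ∑ j, A i j *
        ((c i * c j + s i * s j) * (1 - (c i * c j + s i * s j))) =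
        ∑ i, ∑ j, A i j * (c i * c j) + ∑ i, ∑ j, A i j * (s i * s j) -
        1 / 2 * ∑ i, ∑ j, A i j * ((fun _ : Fin n => (1 : ℝ)) i * (fun _ : Fin n => (1 : ℝ)) j) -
        1 / 2 * ∑ i, ∑ j, A i j * (C i * C j) - 1 / 2 * ∑ i, ∑ j, A i j * (S i * S j) := by
      simp only [Finset.mul_sum, ← Finset.sum_add_distrib, ← Finset.sum_sub_distrib]
      apply Finset.sum_congr rfl
      intro i _
      apply Finset.sum_congr rfl
      intro j _
      rw [hterm]
      ring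
    rw [hexp, sum_sum A p hdiag, sum_sum A p hdiag, sum_sum A p hdiag, sum_sum A p hdiag,
      sum_sum A p hdiag, hs] at h3
    have q1 := quad_le A p N hN0 hW c
    have q2 := quad_le A p N hN0 hW s
    have q3 := quad_le A p N hN0 hW (fun _ => 1)
    have q4 := quad_le A p N hN0 hW C
    have q5 := quad_le A p N hN0 hW S
    rw [abs_le] at q1 q2 q3 q4 q5
    simp only [one_pow, Finset.sum_const, Finset.card_univ, Fintype.card_fin, nsmul_eq_mul,
      mul_one] at h3 q3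
    have t1 : 0 ≤ (∑ j, C j) ^ 2 := sq_nonneg _
    have t2 : 0 ≤ (∑ j, S j) ^ 2 := sq_nonneg _
    have key : 1 / 2 * p * n ^ 2 - 2 * (N * n) ≤ p * (∑ i, c i) ^ 2 := by
      have u1 : N * ∑ i, c i ^ 2 + N * ∑ i, s i ^ 2 = N * n := by rw [← mul_add, hcsum]
      have u2 : N * ∑ i, C i ^ 2 + N * ∑ i, S i ^ 2 = N * n := by rw [← mul_add, hCSsum]
      have u3 : p * ∑ i, c i ^ 2 + p * ∑ i, s i ^ 2 = p * n := by rw [← mul_add, hcsum]
      have u4 : p * ∑ i, C i ^ 2 + p * ∑ i, S i ^ 2 = p * n := by rw [← mul_add, hCSsum]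
      have u5 : 0 ≤ p * (∑ j, C j) ^ 2 := mul_nonneg hp.le t1
      have u6 : 0 ≤ p * (∑ j, S j) ^ 2 := mul_nonneg hp.le t2
      obtain ⟨_, q1b⟩ := q1
      obtain ⟨_, q2b⟩ := q2
      obtain ⟨q3a, _⟩ := q3
      obtain ⟨q4a, _⟩ := q4
      obtain ⟨q5a, _⟩ := q5
      linarith
    have hNn : N * n ≤ 1 / 60 * (p * n ^ 2) := by
      have : N * n ≤ κ / 30 * p * n * n := mul_le_mul_of_nonneg_right hN hnpos.le
      have h' : κ / 30 * p * n * n ≤ 1 / 60 * (p * n ^ 2) := by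
        have h0 : 0 ≤ p * n ^ 2 := by positivity
        calc κ / 30 * p * n * n = κ / 30 * (p * n ^ 2) := by ring
          _ ≤ 1 / 60 * (p * n ^ 2) := mul_le_mul_of_nonneg_right (by linarith) h0
      linarith
    have hr2 : ((n : ℝ) / 2) ^ 2 ≤ (∑ i, c i) ^ 2 := by
      have hpn2 : 0 ≤ p * (n : ℝ) ^ 2 := by positivity
      have : p * ((n : ℝ) / 2) ^ 2 ≤ p * (∑ i, c i) ^ 2 := by linarith
      exact le_of_mul_le_mul_left this hp
    exact (le_abs_self _).trans (abs_le_of_sq_le_sq hr2 hc)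
  -- the fields
  set a : Fin n → ℝ := fun i => ∑ j, A i j * c j with ha
  set b : Fin n → ℝ := fun i => ∑ j, A i j * s j with hb
  have e1 : ∀ i, s i * a i = c i * b i := by
    intro i
    have h := h1 i
    have h' : ∑ j, A i j * (s i * c j - c i * s j) = s i * a i - c i * b i := by
      simp only [ha, hb, Finset.mul_sum, ← Finset.sum_sub_distrib]
      exact Finset.sum_congr rfl (fun j _ => by ring)
    rw [h'] at h
    linarith
  have e2 : ∀ i, 0 ≤ c i * a i + s i * b i := by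
    intro i
    have h := h2 i
    have h' : ∑ j, A i j * (c i * c j + s i * s j) = c i * a i + s i * b i := by
      simp only [ha, hb, Finset.mul_sum, ← Finset.sum_add_distrib]
      exact Finset.sum_congr rfl (fun j _ => by ring)
    rw [h'] at h
    exact h
  have ea : ∀ i, a i = p * (∑ j, c j - c i) + Wx A p c i := fun i => sum_A_mul A p hdiag c i
  have eb : ∀ i, b i = p * (0 - s i) + Wx A p s i := fun i => by
    have := sum_A_mul A p hdiag s i
    rw [hs] at this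
    exact this
  have hcle : ∀ i, c i ≤ 1 := fun i => by nlinarith [hcs i, sq_nonneg (s i), sq_nonneg (c i - 1)]
  have hcge : ∀ i, -1 ≤ c i := fun i => by nlinarith [hcs i, sq_nonneg (s i), sq_nonneg (c i + 1)]
  have hsle : ∀ i, s i ^ 2 ≤ 1 := fun i => by nlinarith [hcs i, sq_nonneg (c i)]
  -- good indices
  have er : ∀ i, a i = c i * (c i * a i + s i * b i) := by
    intro i
    have h := hcs i
    have h' := e1 i
    linear_combination (-(a i)) * h + s i * h'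
  have es : ∀ i, b i = s i * (c i * a i + s i * b i) := by
    intro i
    have h := hcs i
    have h' := e1 i
    linear_combination (-(b i)) * h - c i * h'
  have hgood : ∀ i, 0 < a i → 0 < c i ∧ s i ^ 2 * a i ^ 2 ≤ b i ^ 2 := by
    intro i hi
    set r := c i * a i + s i * b i with hr'
    have hr0 : 0 ≤ r := e2 i
    have h1' : a i = c i * r := er i
    have h2' : b i = s i * r := es i
    have hci : 0 < c i := by
      by_contra hcon
      push Not at hcon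
      have : c i * r ≤ 0 := mul_nonpos_of_nonpos_of_nonneg hcon hr0
      linarith
    refine ⟨hci, ?_⟩
    have har : a i ≤ r := by
      rw [h1']
      calc c i * r ≤ 1 * r := mul_le_mul_of_nonneg_right (hcle i) hr0
        _ = r := one_mul r
    have : a i ^ 2 ≤ r ^ 2 := pow_le_pow_left₀ hi.le har 2
    calc s i ^ 2 * a i ^ 2 ≤ s i ^ 2 * r ^ 2 := mul_le_mul_of_nonneg_left this (sq_nonneg _)
      _ = b i ^ 2 := by rw [h2']; ring
  -- the bad set
  set T : ℝ := κ * p * n / 2 with hT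
  have hTpos : 0 < T := by rw [hT]; positivity
  set B : Finset (Fin n) := Finset.univ.filter (fun i => a i < T) with hB
  set G : Finset (Fin n) := Finset.univ.filter (fun i => ¬ a i < T) with hG
  have hsplit : ∀ f : Fin n → ℝ, ∑ i, f i = ∑ i ∈ B, f i + ∑ i ∈ G, f i := by
    intro f
    rw [hB, hG, Finset.sum_filter_add_sum_filter_not]
  have hBc : (0 : ℝ) ≤ B.card := Nat.cast_nonneg _
  have hN2 : N ^ 2 ≤ (κ / 30) ^ 2 * (p * n) ^ 2 := by
    have : N ^ 2 ≤ (κ / 30 * p * n) ^ 2 := pow_le_pow_left₀ hN0 hN 2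
    calc N ^ 2 ≤ (κ / 30 * p * n) ^ 2 := this
      _ = (κ / 30) ^ 2 * (p * n) ^ 2 := by ring
  -- first bound of the bad set
  have hB1 : (B.card : ℝ) ≤ 64 * (κ / 30) ^ 2 * n := by
    have hb1 : ∀ i ∈ B, (p * n / 8) ^ 2 ≤ (Wx A p c i) ^ 2 := by
      intro i hi
      rw [hB, Finset.mem_filter] at hi
      have h := hi.2
      rw [ea i, hT] at h
      have k1 : p * (∑ j, c j) ≥ p * (n / 2) := mul_le_mul_of_nonneg_left hr hp.le
      have k2 : p * c i ≤ p * 1 := mul_le_mul_of_nonneg_left (hcle i) hp.le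
      have k3 : κ * p * n / 2 ≤ 1 / 4 * (p * n) := by
        calc κ * p * n / 2 = κ / 2 * (p * n) := by ring
          _ ≤ 1 / 4 * (p * n) := mul_le_mul_of_nonneg_right (by linarith) hpn.le
      have k4 : p * 1 ≤ 1 / 24 * (p * n) := by
        calc p * 1 = 1 / 24 * (p * 24) := by ring
          _ ≤ 1 / 24 * (p * n) := by
            apply mul_le_mul_of_nonneg_left _ (by norm_num)
            exact mul_le_mul_of_nonneg_left hn0 hp.le
      have k5 : Wx A p c i ≤ - (p * n / 8) := by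
        have : p * (∑ j, c j - c i) = p * (∑ j, c j) - p * c i := by ring
        rw [this] at h
        linarith
      have k6 : 0 ≤ p * n / 8 := by positivity
      nlinarith
    have hb2 : (B.card : ℝ) * (p * n / 8) ^ 2 ≤ N ^ 2 * n := by
      calc (B.card : ℝ) * (p * n / 8) ^ 2 = ∑ i ∈ B, (p * n / 8) ^ 2 := by
            rw [Finset.sum_const, nsmul_eq_mul]
        _ ≤ ∑ i ∈ B, (Wx A p c i) ^ 2 := Finset.sum_le_sum hb1
        _ ≤ ∑ i, (Wx A p c i) ^ 2 := by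
            apply Finset.sum_le_sum_of_subset_of_nonneg (Finset.subset_univ _)
            intro i _ _; exact sq_nonneg _
        _ ≤ N ^ 2 * ∑ j, c j ^ 2 := hW c
        _ ≤ N ^ 2 * n := by
            apply mul_le_mul_of_nonneg_left _ (sq_nonneg _)
            linarith
    have hb3 : (B.card : ℝ) * (p * n / 8) ^ 2 ≤ (κ / 30) ^ 2 * (p * n) ^ 2 * n :=
      hb2.trans (mul_le_mul_of_nonneg_right hN2 hnpos.le)
    have hb4 : (B.card : ℝ) * (p * n) ^ 2 ≤ (64 * (κ / 30) ^ 2 * n) * (p * n) ^ 2 := by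
      have e : (p * (n : ℝ) / 8) ^ 2 = (p * n) ^ 2 / 64 := by ring
      rw [e] at hb3
      linarith
    exact le_of_mul_le_mul_right hb4 (by positivity)
  -- the sines
  have hG1 : ∀ i ∈ G, s i ^ 2 * T ^ 2 ≤ 2 * p ^ 2 * s i ^ 2 + 2 * (Wx A p s i) ^ 2 := by
    intro i hi
    rw [hG, Finset.mem_filter] at hi
    have hai : T ≤ a i := not_lt.1 hi.2
    have h := (hgood i (lt_of_lt_of_le hTpos hai)).2
    have h' : s i ^ 2 * T ^ 2 ≤ s i ^ 2 * a i ^ 2 :=
      mul_le_mul_of_nonneg_left (pow_le_pow_left₀ hTpos.le hai 2) (sq_nonneg _)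
    have h'' : b i ^ 2 ≤ 2 * p ^ 2 * s i ^ 2 + 2 * (Wx A p s i) ^ 2 := by
      rw [eb i]
      nlinarith [sq_nonneg (p * s i + Wx A p s i)]
    linarith
  have hG2 : (∑ i ∈ G, s i ^ 2) * T ^ 2 ≤ (2 * p ^ 2 + 2 * N ^ 2) * ∑ i, s i ^ 2 := by
    calc (∑ i ∈ G, s i ^ 2) * T ^ 2 = ∑ i ∈ G, s i ^ 2 * T ^ 2 := by rw [Finset.sum_mul]
      _ ≤ ∑ i ∈ G, (2 * p ^ 2 * s i ^ 2 + 2 * (Wx A p s i) ^ 2) := Finset.sum_le_sum hG1
      _ ≤ ∑ i, (2 * p ^ 2 * s i ^ 2 + 2 * (Wx A p s i) ^ 2) := by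
          apply Finset.sum_le_sum_of_subset_of_nonneg (Finset.subset_univ _)
          intro i _ _; positivity
      _ = 2 * p ^ 2 * ∑ i, s i ^ 2 + 2 * ∑ i, (Wx A p s i) ^ 2 := by
          rw [Finset.sum_add_distrib, ← Finset.mul_sum, ← Finset.mul_sum]
      _ ≤ 2 * p ^ 2 * ∑ i, s i ^ 2 + 2 * (N ^ 2 * ∑ i, s i ^ 2) := by
          have := hW s
          linarith
      _ = (2 * p ^ 2 + 2 * N ^ 2) * ∑ i, s i ^ 2 := by ring
  have hG3 : ∑ i ∈ G, s i ^ 2 ≤ 1 / 4 * ∑ i, s i ^ 2 := by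
    have h4 : 2 * p ^ 2 + 2 * N ^ 2 ≤ 1 / 4 * T ^ 2 := by
      have k1 : T ^ 2 = κ ^ 2 * (p * n) ^ 2 / 4 := by rw [hT]; ring
      have k2 : (144 : ℝ) * p ^ 2 ≤ κ ^ 2 * (p * n) ^ 2 := by
        have : (12 : ℝ) ^ 2 ≤ (κ * n) ^ 2 := pow_le_pow_left₀ (by norm_num) hn 2
        calc (144 : ℝ) * p ^ 2 = 12 ^ 2 * p ^ 2 := by norm_num
          _ ≤ (κ * n) ^ 2 * p ^ 2 := mul_le_mul_of_nonneg_right this (sq_nonneg _)
          _ = κ ^ 2 * (p * n) ^ 2 := by ring
      have k3 : (κ / 30) ^ 2 * (p * n) ^ 2 = κ ^ 2 * (p * n) ^ 2 / 900 := by ring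
      rw [k3] at hN2
      rw [k1]
      have k4 : 0 ≤ κ ^ 2 * (p * n) ^ 2 := by positivity
      linarith
    have h5 : (∑ i ∈ G, s i ^ 2) * T ^ 2 ≤ (1 / 4 * ∑ i, s i ^ 2) * T ^ 2 := by
      calc (∑ i ∈ G, s i ^ 2) * T ^ 2 ≤ (2 * p ^ 2 + 2 * N ^ 2) * ∑ i, s i ^ 2 := hG2
        _ ≤ (1 / 4 * T ^ 2) * ∑ i, s i ^ 2 := mul_le_mul_of_nonneg_right h4 hs2
        _ = _ := by ring
    exact le_of_mul_le_mul_right h5 (by positivity)
  have hBs : ∑ i ∈ B, s i ^ 2 ≤ B.card := by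
    calc ∑ i ∈ B, s i ^ 2 ≤ ∑ i ∈ B, (1 : ℝ) := Finset.sum_le_sum (fun i _ => hsle i)
      _ = B.card := by simp
  have hs3 : ∑ i, s i ^ 2 ≤ 2 * B.card := by
    have := hsplit (fun i => s i ^ 2)
    linarith
  -- the vector u
  set u : Fin n → ℝ := fun i => 1 - c i with hu
  have hGu : ∀ i ∈ G, 0 ≤ u i ∧ u i ≤ s i ^ 2 ∧ u i ^ 2 ≤ s i ^ 2 := by
    intro i hi
    rw [hG, Finset.mem_filter] at hi
    have hai : T ≤ a i := not_lt.1 hi.2
    have hci := (hgood i (lt_of_lt_of_le hTpos hai)).1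
    have h := hcs i
    have h0 := hcle i
    have hu0 : 0 ≤ u i := by simp only [hu]; linarith
    have hu1 : u i ≤ s i ^ 2 := by simp only [hu]; nlinarith
    have hu2 : u i ^ 2 ≤ u i := by
      have : u i ≤ 1 := by simp only [hu]; linarith
      nlinarith
    exact ⟨hu0, hu1, hu2.trans hu1⟩
  have hGs : ∑ i ∈ G, s i ^ 2 ≤ B.card := by linarith
  have husum : ∑ i, u i ≤ 3 * B.card := by
    rw [hsplit u]
    have k1 : ∑ i ∈ B, u i ≤ 2 * B.card := by
      calc ∑ i ∈ B, u i ≤ ∑ i ∈ B, (2 : ℝ) :=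
            Finset.sum_le_sum (fun i _ => by simp only [hu]; linarith [hcge i])
        _ = 2 * B.card := by rw [Finset.sum_const, nsmul_eq_mul]; ring
    have k2 : ∑ i ∈ G, u i ≤ ∑ i ∈ G, s i ^ 2 := Finset.sum_le_sum (fun i hi => (hGu i hi).2.1)
    linarith
  have husq : ∑ i, u i ^ 2 ≤ 5 * B.card := by
    rw [hsplit (fun i => u i ^ 2)]
    have k1 : ∑ i ∈ B, u i ^ 2 ≤ 4 * B.card := by
      calc ∑ i ∈ B, u i ^ 2 ≤ ∑ i ∈ B, (4 : ℝ) := by
            apply Finset.sum_le_sum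
            intro i _
            have h1 := hcge i
            have h2 := hcle i
            simp only [hu]
            nlinarith
        _ = 4 * B.card := by rw [Finset.sum_const, nsmul_eq_mul]; ring
    have k2 : ∑ i ∈ G, u i ^ 2 ≤ ∑ i ∈ G, s i ^ 2 :=
      Finset.sum_le_sum (fun i hi => (hGu i hi).2.2)
    linarith
  -- second bound
  have hb5 : ∀ i ∈ B, (κ * p * n / 4) ^ 2 ≤ (Wx A p u i) ^ 2 := by
    intro i hi
    rw [hB, Finset.mem_filter] at hi
    have h := hi.2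
    have hai : a i = ∑ j, A i j - ∑ j, A i j * u j := by
      simp only [ha, hu]
      rw [← Finset.sum_sub_distrib]
      exact Finset.sum_congr rfl (fun j _ => by ring)
    rw [hai, sum_A_mul A p hdiag u i, hT] at h
    have k1 := hD i
    have hui : 0 ≤ u i := by simp only [hu]; linarith [hcle i]
    have k2 : p * (∑ j, u j - u i) ≤ p * (3 * B.card) :=
      mul_le_mul_of_nonneg_left (by linarith) hp.le
    have k3 : p * (3 * B.card) ≤ κ * p * n / 4 := by
      calc p * (3 * B.card) ≤ p * (3 * (64 * (κ / 30) ^ 2 * n)) := by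
            apply mul_le_mul_of_nonneg_left _ hp.le
            linarith
        _ = (192 / 900 * κ) * (κ * p * n) := by ring
        _ ≤ (1 / 4) * (κ * p * n) := by
            apply mul_le_mul_of_nonneg_right _ (by positivity)
            linarith
        _ = _ := by ring
    have k4 : κ * p * n / 4 ≤ Wx A p u i := by linarith
    have k5 : 0 ≤ κ * p * n / 4 := by positivity
    exact pow_le_pow_left₀ k5 k4 2
  have hb6 : (B.card : ℝ) * (κ * p * n / 4) ^ 2 ≤ N ^ 2 * (5 * B.card) := by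
    calc (B.card : ℝ) * (κ * p * n / 4) ^ 2 = ∑ i ∈ B, (κ * p * n / 4) ^ 2 := by
          rw [Finset.sum_const, nsmul_eq_mul]
      _ ≤ ∑ i ∈ B, (Wx A p u i) ^ 2 := Finset.sum_le_sum hb5
      _ ≤ ∑ i, (Wx A p u i) ^ 2 := by
          apply Finset.sum_le_sum_of_subset_of_nonneg (Finset.subset_univ _)
          intro i _ _; exact sq_nonneg _
      _ ≤ N ^ 2 * ∑ j, u j ^ 2 := hW u
      _ ≤ N ^ 2 * (5 * B.card) := mul_le_mul_of_nonneg_left husq (sq_nonneg _)
  have hB0 : (B.card : ℝ) = 0 := by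
    by_contra hne
    have hpos : (0 : ℝ) < B.card := lt_of_le_of_ne hBc (Ne.symm hne)
    have h7 : N ^ 2 * (5 * B.card) ≤ (κ / 30) ^ 2 * (p * n) ^ 2 * (5 * B.card) :=
      mul_le_mul_of_nonneg_right hN2 (mul_nonneg (by norm_num) hBc)
    have h8 : (B.card : ℝ) * (κ * p * n / 4) ^ 2 =
        (1 / 16) * (B.card * (κ ^ 2 * (p * n) ^ 2)) := by ring
    have h9 : (κ / 30) ^ 2 * (p * n) ^ 2 * (5 * B.card) =
        (5 / 900) * (B.card * (κ ^ 2 * (p * n) ^ 2)) := by ring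
    have h11 : 0 < κ ^ 2 * (p * (n : ℝ)) ^ 2 := by positivity
    have h10 : 0 < (B.card : ℝ) * (κ ^ 2 * (p * n) ^ 2) := mul_pos hpos h11
    rw [h8] at hb6
    rw [h9] at h7
    linarith
  have hs4 : ∑ i, s i ^ 2 ≤ 0 := by rw [hB0] at hs3; linarith
  have hs5 : ∀ i, s i = 0 := by
    intro i
    have h : ∑ i, s i ^ 2 = 0 := le_antisymm hs4 hs2
    rw [Finset.sum_eq_zero_iff_of_nonneg (fun i _ => sq_nonneg _)] at h
    exact pow_eq_zero_iff (two_ne_zero) |>.1 (h i (Finset.mem_univ i))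
  intro i
  have hiB : i ∉ B := by
    have : B.card = 0 := by exact_mod_cast hB0
    rw [Finset.card_eq_zero] at this
    rw [this]
    exact Finset.notMem_empty i
  have hai : T ≤ a i := by
    by_contra hcon
    exact hiB (by rw [hB, Finset.mem_filter]; exact ⟨Finset.mem_univ i, not_le.1 hcon⟩)
  have hci := (hgood i (lt_of_lt_of_le hTpos hai)).1
  have h := hcs i
  rw [hs5 i] at h
  refine ⟨?_, hs5 i⟩
  nlinarith

end Pool.Agent.Y986.GS
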