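import Pool.Agent.Y986.GS.Main

/-!
Global synchrony of random signed matrices above the threshold.
-/

namespace Pool.Agent.Y986.GS

open Finset Filter Topology

open scoped Classical in
theorem bad_bound {n : ℕ} (ε δ κ L : ℝ) (hε : 0 < ε) (hκ : κ = ε / (4 * (1 + ε)))
    (hL : L = Real.log n) (hn2 : 2 ≤ n) (hb : 12 ≤ κ * n)
    (hc1 : 3575 ≤ (4 * κ / 15) * Real.sqrt L) (hd : (1 + L) / n ≤ κ)
    (hδ1 : (1 + ε) * Real.sqrt (L / (2 * n)) ≤ δ) (hδ2 : δ ≤ 1 / 2) :
    ∑ s : Fin n → Fin n → Bool, (if ¬ Good s then wt δ s else 0) ≤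
      2 * Real.exp (-n) + Real.exp (-(ε * L)) := by
  have hn0 : 0 < n := by omega
  have hn' : (0 : ℝ) < n := by exact_mod_cast hn0
  have hn2' : (2 : ℝ) ≤ n := by exact_mod_cast hn2
  have hLpos : 0 < L := by rw [hL]; exact Real.log_pos (by linarith)
  have hκ0 : 0 < κ := by rw [hκ]; positivity
  have hκ4 : κ * (4 * (1 + ε)) = ε := by
    rw [hκ]; field_simp
  have hκ2 : κ ≤ 1 / 2 := by nlinarith
  have hx : 0 < Real.sqrt (L / (2 * n)) := Real.sqrt_pos.2 (by positivity)
  have hδ0 : 0 < δ := lt_of_lt_of_le (by positivity) hδ1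
  obtain ⟨c, hc⟩ : ∃ c : ℝ, c = 2 * Real.sqrt (L / (2 * n)) := ⟨_, rfl⟩
  have hc0 : 0 < c := by rw [hc]; positivity
  have hcsq : c ^ 2 / 2 = L / n := by
    rw [hc, mul_pow, Real.sq_sqrt (by positivity)]
    field_simp
  have h2δ : (1 + ε) * c ≤ 2 * δ := by rw [hc]; linarith
  have h := prob_bad (n := n) δ κ (κ / 60 * (2 * δ) * n) hn0 hδ0 hδ2 hκ0 hκ2 hb (by positivity)
    (by
      have : 0 ≤ κ * (2 * δ) * n := by positivity
      nlinarith) c hc0.le
  refine h.trans (add_le_add ?_ ?_)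
  · -- first term
    apply mul_le_mul_of_nonneg_left _ (by norm_num)
    apply Real.exp_le_exp.2
    have hr : 0 < Real.sqrt n := Real.sqrt_pos.2 hn'
    have h1 : Real.sqrt L ≤ 2 * δ * Real.sqrt n := by
      have e1 : Real.sqrt (L / (2 * n)) * Real.sqrt n = Real.sqrt (L / 2) := by
        rw [← Real.sqrt_mul (by positivity)]
        congr 1
        field_simp
      have e2 : Real.sqrt L ≤ 2 * Real.sqrt (L / 2) := by
        rw [show L = 2 * (L / 2) by ring, Real.sqrt_mul (by norm_num)]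
        have e3 : Real.sqrt 2 ≤ 2 := by
          rw [Real.sqrt_le_left (by norm_num)]
          norm_num
        have e4 : Real.sqrt (2 * (L / 2) / 2) = Real.sqrt (L / 2) := by ring_nf
        rw [e4]
        exact mul_le_mul_of_nonneg_right e3 (Real.sqrt_nonneg _)
      calc Real.sqrt L ≤ 2 * Real.sqrt (L / 2) := e2
        _ = 2 * Real.sqrt (L / (2 * n)) * Real.sqrt n := by rw [← e1]; ring
        _ ≤ 2 * δ * Real.sqrt n := by
            apply mul_le_mul_of_nonneg_right _ hr.le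
            nlinarith
    have h2 : 3575 ≤ (4 * κ / 15) * (2 * δ * Real.sqrt n) :=
      hc1.trans (mul_le_mul_of_nonneg_left h1 (by positivity))
    have h3 : 16 * Real.sqrt n * (κ / 60 * (2 * δ) * n) =
        (4 * κ / 15) * (2 * δ * Real.sqrt n) * n := by ring
    rw [h3]
    have h4 := mul_le_mul_of_nonneg_right h2 hn'.le
    linarith
  · -- second term
    have hq : (1 + ε) * (2 * L) ≤ 2 * δ * c * n := by
      have e1 : c * c * n = 2 * L := by
        have : c * c = 2 * (L / n) := by rw [← hcsq]; ring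
        rw [this]; field_simp
      calc (1 + ε) * (2 * L) = (1 + ε) * c * c * n := by rw [← e1]; ring
        _ ≤ 2 * δ * c * n := by
            apply mul_le_mul_of_nonneg_right _ hn'.le
            exact mul_le_mul_of_nonneg_right h2δ hc0.le
    set q := 2 * δ * c * n with hq'
    have hq0 : 0 < q := by rw [hq']; positivity
    have e1 : c * (κ * (2 * δ) * n) + (n - 1) * (c ^ 2 / 2 - 2 * δ * c * (1 - c ^ 2 / 2)) =
        κ * q + (L - L / n) - q * (1 - (1 + L) / n + L / n / n) := by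
      rw [hcsq, hq']
      field_simp
      ring
    have e2 : κ * q + (L - L / n) - q * (1 - (1 + L) / n + L / n / n) ≤ -((1 + ε) * L) := by
      have a1 : 0 ≤ L / n := by positivity
      have a2 : 0 ≤ q * (L / n / n) := by positivity
      have a3 : q * ((1 + L) / n) ≤ q * κ := mul_le_mul_of_nonneg_left hd hq0.le
      have a4 : (1 - 2 * κ) * ((1 + ε) * (2 * L)) ≤ (1 - 2 * κ) * q :=
        mul_le_mul_of_nonneg_left hq (by linarith)
      have a5 : (1 - 2 * κ) * ((1 + ε) * (2 * L)) = (2 + ε) * L := by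
        have : (1 - 2 * κ) * ((1 + ε) * (2 * L)) = 2 * (1 + ε) * L - κ * (4 * (1 + ε)) * L := by
          ring
        rw [this, hκ4]
        ring
      nlinarith
    rw [e1]
    calc (n : ℝ) * Real.exp (κ * q + (L - L / n) - q * (1 - (1 + L) / n + L / n / n)) ≤
          n * Real.exp (-((1 + ε) * L)) :=
          mul_le_mul_of_nonneg_left (Real.exp_le_exp.2 e2) hn'.le
      _ = Real.exp L * Real.exp (-((1 + ε) * L)) := by
          rw [hL, Real.exp_log hn']
      _ = Real.exp (-(ε * L)) := by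
          rw [← Real.exp_add]; ring_nf

open scoped Classical in
theorem good_add_bad {n : ℕ} (δ : ℝ) :
    ∑ s : Fin n → Fin n → Bool, (if Good s then wt δ s else 0) =
      1 - ∑ s : Fin n → Fin n → Bool, (if ¬ Good s then wt δ s else 0) := by
  rw [eq_sub_iff_add_eq, ← Finset.sum_add_distrib, ← sum_wt (n := n) δ]
  apply Finset.sum_congr rfl
  intro s _
  by_cases h : Good s <;> simp [h]

open scoped Classical in
theorem tendsto_good (ε : ℝ) (hε : 0 < ε) (δ : ℕ → ℝ) (hδ : ∀ n, 0 ≤ δ n ∧ δ n ≤ 1 / 2)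
    (hev : ∀ᶠ n : ℕ in atTop, (1 + ε) * Real.sqrt (Real.log (n : ℝ) / (2 * (n : ℝ))) ≤ δ n) :
    Tendsto (fun n : ℕ => ∑ s : Fin n → Fin n → Bool, (if Good s then wt (δ n) s else 0))
      atTop (𝓝 1) := by
  set κ := ε / (4 * (1 + ε)) with hκ
  have hκ0 : 0 < κ := by rw [hκ]; positivity
  have hlog : Tendsto (fun n : ℕ => Real.log (n : ℝ)) atTop atTop :=
    Real.tendsto_log_atTop.comp tendsto_natCast_atTop_atTop
  have ev1 : ∀ᶠ n : ℕ in atTop, 12 ≤ κ * n := by
    have : Tendsto (fun n : ℕ => κ * (n : ℝ)) atTop atTop :=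
      Tendsto.const_mul_atTop hκ0 tendsto_natCast_atTop_atTop
    exact this.eventually_ge_atTop 12
  have ev2 : ∀ᶠ n : ℕ in atTop, 3575 ≤ (4 * κ / 15) * Real.sqrt (Real.log n) := by
    have h1 : Tendsto (fun n : ℕ => Real.sqrt (Real.log (n : ℝ))) atTop atTop :=
      Real.tendsto_sqrt_atTop.comp hlog
    have : Tendsto (fun n : ℕ => (4 * κ / 15) * Real.sqrt (Real.log (n : ℝ))) atTop atTop :=
      Tendsto.const_mul_atTop (by positivity) h1
    exact this.eventually_ge_atTop 3575
  have ev3 : ∀ᶠ n : ℕ in atTop, (1 + Real.log n) / n ≤ κ := by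
    have h1 : Tendsto (fun x : ℝ => Real.log x / x) atTop (𝓝 0) := by
      have := Real.isLittleO_log_id_atTop
      exact this.tendsto_div_nhds_zero
    have h2 : Tendsto (fun n : ℕ => Real.log (n : ℝ) / n) atTop (𝓝 0) :=
      h1.comp tendsto_natCast_atTop_atTop
    have h3 : Tendsto (fun n : ℕ => 1 / (n : ℝ)) atTop (𝓝 0) :=
      tendsto_const_nhds.div_atTop tendsto_natCast_atTop_atTop
    have h4 : Tendsto (fun n : ℕ => 1 / (n : ℝ) + Real.log (n : ℝ) / n) atTop (𝓝 (0 + 0)) :=
      h3.add h2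
    rw [add_zero] at h4
    filter_upwards [h4.eventually (Iic_mem_nhds hκ0)] with n hn
    rw [add_div]
    exact hn
  have ev4 : ∀ᶠ n : ℕ in atTop, 2 ≤ n := eventually_ge_atTop 2
  have hup : ∀ n, ∑ s : Fin n → Fin n → Bool, (if Good s then wt (δ n) s else 0) ≤ 1 := by
    intro n
    rw [good_add_bad]
    have : 0 ≤ ∑ s : Fin n → Fin n → Bool, (if ¬ Good s then wt (δ n) s else 0) := by
      apply Finset.sum_nonneg
      intro s _
      split_ifs
      · exact le_rfl
      · exact wt_nonneg (hδ n).1 (hδ n).2 s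
    linarith
  have hlow : ∀ᶠ n : ℕ in atTop, 1 - (2 * Real.exp (-(n : ℝ)) + Real.exp (-(ε * Real.log n))) ≤
      ∑ s : Fin n → Fin n → Bool, (if Good s then wt (δ n) s else 0) := by
    filter_upwards [ev1, ev2, ev3, ev4, hev] with n h1 h2 h3 h4 h5
    rw [good_add_bad]
    have := bad_bound ε (δ n) κ (Real.log n) hε hκ rfl h4 h1 h2 h3 h5 (hδ n).2
    linarith
  have hlim : Tendsto (fun n : ℕ => 1 - (2 * Real.exp (-(n : ℝ)) + Real.exp (-(ε * Real.log n))))
      atTop (𝓝 1) := by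
    have h1 : Tendsto (fun n : ℕ => Real.exp (-(n : ℝ))) atTop (𝓝 0) :=
      Real.tendsto_exp_neg_atTop_nhds_zero.comp tendsto_natCast_atTop_atTop
    have h2 : Tendsto (fun n : ℕ => Real.exp (-(ε * Real.log n))) atTop (𝓝 0) :=
      Real.tendsto_exp_neg_atTop_nhds_zero.comp (Tendsto.const_mul_atTop hε hlog)
    have h3 := ((h1.const_mul 2).add h2).const_sub 1
    simpa using h3
  exact tendsto_of_tendsto_of_tendsto_of_le_of_le' hlim tendsto_const_nhds hlow
    (Eventually.of_forall hup)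

end Pool.Agent.Y986.GS
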