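import Pool.Agent.Y986.GS.Net

/-!
Exponential moments for the random signed matrix.
-/

namespace Pool.Agent.Y986.GS

open Finset

/-- the weight of one entry -/
noncomputable def wq {n : ℕ} (δ : ℝ) (i j : Fin n) (b : Bool) : ℝ :=
  if i < j then (if b = true then (1 / 2 : ℝ) + δ else (1 / 2 : ℝ) - δ) else (1 / 2 : ℝ)

/-- the weight of a configuration -/
noncomputable def wt {n : ℕ} (δ : ℝ) (s : Fin n → Fin n → Bool) : ℝ :=
  ∏ i : Fin n, ∏ j : Fin n, wq δ i j (s i j)

/-- the sign of a bit -/
noncomputable def sg (b : Bool) : ℝ := if b = true then (1 : ℝ) else -1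

/-- the random matrix -/
noncomputable def Am {n : ℕ} (s : Fin n → Fin n → Bool) (i j : Fin n) : ℝ :=
  if i < j then sg (s i j) else if j < i then sg (s j i) else 0

theorem wq_nonneg {n : ℕ} {δ : ℝ} (h0 : 0 ≤ δ) (h1 : δ ≤ 1 / 2) (i j : Fin n) (b : Bool) :
    0 ≤ wq δ i j b := by
  unfold wq
  split_ifs <;> linarith

theorem wt_nonneg {n : ℕ} {δ : ℝ} (h0 : 0 ≤ δ) (h1 : δ ≤ 1 / 2) (s : Fin n → Fin n → Bool) :
    0 ≤ wt δ s :=
  Finset.prod_nonneg (fun i _ => Finset.prod_nonneg (fun j _ => wq_nonneg h0 h1 i j _))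

theorem prod_sum' {n : ℕ} (f : Fin n → Fin n → Bool → ℝ) :
    ∑ s : Fin n → Fin n → Bool, ∏ i, ∏ j, f i j (s i j) = ∏ i, ∏ j, ∑ b : Bool, f i j b := by
  have h1 : ∀ i, ∏ j, ∑ b : Bool, f i j b = ∑ t : Fin n → Bool, ∏ j, f i j (t j) := by
    intro i
    rw [Finset.prod_univ_sum, Fintype.piFinset_univ]
  simp only [h1]
  rw [Finset.prod_univ_sum, Fintype.piFinset_univ]

theorem sum_wt {n : ℕ} (δ : ℝ) : ∑ s : Fin n → Fin n → Bool, wt δ s = 1 := by
  unfold wt
  rw [prod_sum' (fun i j b => wq δ i j b)]
  apply Finset.prod_eq_one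
  intro i _
  apply Finset.prod_eq_one
  intro j _
  unfold wq
  rw [Fintype.sum_bool]
  split_ifs <;> simp_all <;> ring

/-- the exponential moment of a sum over the entries -/
theorem sum_wt_exp {n : ℕ} (δ : ℝ) (e : Fin n → Fin n → Bool → ℝ) :
    ∑ s : Fin n → Fin n → Bool, wt δ s * Real.exp (∑ i, ∑ j, e i j (s i j)) =
      ∏ i, ∏ j, ∑ b : Bool, wq δ i j b * Real.exp (e i j b) := by
  rw [← prod_sum' (fun i j b => wq δ i j b * Real.exp (e i j b))]
  apply Finset.sum_congr rfl
  intro s _
  unfold wt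
  rw [Real.exp_sum, ← Finset.prod_mul_distrib]
  apply Finset.prod_congr rfl
  intro i _
  rw [Real.exp_sum, ← Finset.prod_mul_distrib]

theorem exp_le_add_exp_sq (x : ℝ) : Real.exp x ≤ x + Real.exp (x ^ 2) := by
  rcases le_or_gt |x| 1 with h | h
  · have h1 := Real.abs_exp_sub_one_sub_id_le h
    have h2 := (abs_le.1 h1).2
    have h3 := Real.add_one_le_exp (x ^ 2)
    linarith
  · rcases lt_or_ge x 0 with hx | hx
    · have h1 : x < -1 := by
        rw [abs_of_neg hx] at h
        linarith
      have h2 : Real.exp x ≤ 1 := Real.exp_le_one_iff.2 hx.le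
      have h3 := Real.add_one_le_exp (x ^ 2)
      nlinarith
    · rw [abs_of_nonneg hx] at h
      have h1 : Real.exp x ≤ Real.exp (x ^ 2) := Real.exp_le_exp.2 (by nlinarith)
      linarith

/-- a centred entry is sub-Gaussian -/
theorem entry_mgf {δ : ℝ} (h0 : 0 ≤ δ) (h1 : δ ≤ 1 / 2) (m : ℝ) :
    (1 / 2 + δ) * Real.exp ((1 - 2 * δ) * m) + (1 / 2 - δ) * Real.exp ((-1 - 2 * δ) * m) ≤
      Real.exp (4 * m ^ 2) := by
  have a1 := exp_le_add_exp_sq ((1 - 2 * δ) * m)
  have a2 := exp_le_add_exp_sq ((-1 - 2 * δ) * m)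
  have b1 : Real.exp (((1 - 2 * δ) * m) ^ 2) ≤ Real.exp (4 * m ^ 2) := by
    apply Real.exp_le_exp.2
    rw [mul_pow]
    apply mul_le_mul_of_nonneg_right _ (sq_nonneg m)
    nlinarith
  have b2 : Real.exp (((-1 - 2 * δ) * m) ^ 2) ≤ Real.exp (4 * m ^ 2) := by
    apply Real.exp_le_exp.2
    rw [mul_pow]
    apply mul_le_mul_of_nonneg_right _ (sq_nonneg m)
    nlinarith
  have c1 : (1 / 2 + δ) * Real.exp ((1 - 2 * δ) * m) ≤
      (1 / 2 + δ) * ((1 - 2 * δ) * m + Real.exp (4 * m ^ 2)) :=
    mul_le_mul_of_nonneg_left (by linarith) (by linarith)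
  have c2 : (1 / 2 - δ) * Real.exp ((-1 - 2 * δ) * m) ≤
      (1 / 2 - δ) * ((-1 - 2 * δ) * m + Real.exp (4 * m ^ 2)) :=
    mul_le_mul_of_nonneg_left (by linarith) (by linarith)
  have e : (1 / 2 + δ) * ((1 - 2 * δ) * m + Real.exp (4 * m ^ 2)) +
      (1 / 2 - δ) * ((-1 - 2 * δ) * m + Real.exp (4 * m ^ 2)) = Real.exp (4 * m ^ 2) := by ring
  linarith

/-- the centred matrix -/
noncomputable def Wm {n : ℕ} (δ : ℝ) (s : Fin n → Fin n → Bool) (i j : Fin n) : ℝ :=
  if i = j then 0 else Am s i j - 2 * δ

theorem bil_Wm {n : ℕ} (δ : ℝ) (s : Fin n → Fin n → Bool) (y x : Fin n → ℝ) :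
    bil (Wm δ s) y x = ∑ i, ∑ j, (if i < j then (sg (s i j) - 2 * δ) * (y i * x j + y j * x i)
      else 0) := by
  unfold bil
  have h : ∀ i j, Wm δ s i j * y i * x j =
      (if i < j then (sg (s i j) - 2 * δ) * (y i * x j) else 0) +
      (if j < i then (sg (s j i) - 2 * δ) * (y i * x j) else 0) := by
    intro i j
    unfold Wm Am
    rcases lt_trichotomy i j with hij | hij | hij
    · have h1 : ¬ i = j := ne_of_lt hij
      have h2 : ¬ j < i := not_lt_of_gt hij
      simp only [h1, h2, hij, if_true, if_false]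
      ring
    · subst hij
      simp
    · have h1 : ¬ i = j := (ne_of_gt hij)
      have h2 : ¬ i < j := not_lt_of_gt hij
      simp only [h1, h2, hij, if_true, if_false]
      ring
  simp only [h, Finset.sum_add_distrib]
  have h2 : ∑ i, ∑ j, (if j < i then (sg (s j i) - 2 * δ) * (y i * x j) else 0) =
      ∑ i, ∑ j, (if i < j then (sg (s i j) - 2 * δ) * (y j * x i) else 0) := by
    rw [Finset.sum_comm]
  rw [h2]
  simp only [← Finset.sum_add_distrib]
  apply Finset.sum_congr rfl
  intro i _
  apply Finset.sum_congr rfl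
  intro j _
  split_ifs <;> ring

theorem bil_mgf {n : ℕ} {δ : ℝ} (h0 : 0 ≤ δ) (h1 : δ ≤ 1 / 2) (lam : ℝ) (y x : Fin n → ℝ) :
    ∑ s : Fin n → Fin n → Bool, wt δ s * Real.exp (lam * bil (Wm δ s) y x) ≤
      Real.exp (8 * lam ^ 2 * ((∑ i, y i ^ 2) * ∑ i, x i ^ 2)) := by
  have e : ∀ s : Fin n → Fin n → Bool, lam * bil (Wm δ s) y x =
      ∑ i, ∑ j, (fun (i j : Fin n) (b : Bool) => (if i < j then
        (sg b - 2 * δ) * (lam * (y i * x j + y j * x i)) else 0)) i j (s i j) := by
    intro s
    rw [bil_Wm, Finset.mul_sum]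
    apply Finset.sum_congr rfl
    intro i _
    rw [Finset.mul_sum]
    apply Finset.sum_congr rfl
    intro j _
    simp only
    split_ifs <;> ring
  simp only [e]
  rw [sum_wt_exp δ (fun (i j : Fin n) (b : Bool) => (if i < j then
        (sg b - 2 * δ) * (lam * (y i * x j + y j * x i)) else 0))]
  have hb : ∀ i j : Fin n, ∑ b : Bool, wq δ i j b * Real.exp (if i < j then
        (sg b - 2 * δ) * (lam * (y i * x j + y j * x i)) else 0) ≤
        Real.exp (8 * lam ^ 2 * (if i < j then y i ^ 2 * x j ^ 2 + y j ^ 2 * x i ^ 2 else 0)) := by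
    intro i j
    rw [Fintype.sum_bool]
    unfold wq sg
    by_cases hij : i < j
    · simp only [hij, if_true]
      have hm := entry_mgf h0 h1 (lam * (y i * x j + y j * x i))
      have e1 : (if (false : Bool) = true then (1 / 2 : ℝ) + δ else 1 / 2 - δ) = 1 / 2 - δ := by
        simp
      have e2 : (if (false : Bool) = true then (1 : ℝ) else -1) = -1 := by simp
      rw [e1, e2]
      refine hm.trans (Real.exp_le_exp.2 ?_)
      have : (y i * x j + y j * x i) ^ 2 ≤ 2 * (y i ^ 2 * x j ^ 2 + y j ^ 2 * x i ^ 2) := by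
        nlinarith [sq_nonneg (y i * x j - y j * x i)]
      have hl : 0 ≤ lam ^ 2 := sq_nonneg _
      calc 4 * (lam * (y i * x j + y j * x i)) ^ 2 =
            4 * lam ^ 2 * (y i * x j + y j * x i) ^ 2 := by ring
        _ ≤ 4 * lam ^ 2 * (2 * (y i ^ 2 * x j ^ 2 + y j ^ 2 * x i ^ 2)) :=
            mul_le_mul_of_nonneg_left this (by positivity)
        _ = _ := by ring
    · simp only [hij, if_false]
      norm_num
  calc ∏ i, ∏ j, ∑ b : Bool, wq δ i j b * Real.exp (if i < j then
        (sg b - 2 * δ) * (lam * (y i * x j + y j * x i)) else 0) ≤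
        ∏ i, ∏ j, Real.exp (8 * lam ^ 2 *
          (if i < j then y i ^ 2 * x j ^ 2 + y j ^ 2 * x i ^ 2 else 0)) := by
        apply Finset.prod_le_prod
        · intro i _
          apply Finset.prod_nonneg
          intro j _
          apply Finset.sum_nonneg
          intro b _
          exact mul_nonneg (wq_nonneg h0 h1 i j b) (Real.exp_pos _).le
        · intro i _
          apply Finset.prod_le_prod
          · intro j _
            apply Finset.sum_nonneg
            intro b _
            exact mul_nonneg (wq_nonneg h0 h1 i j b) (Real.exp_pos _).le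
          · intro j _
            exact hb i j
    _ = Real.exp (8 * lam ^ 2 * ∑ i, ∑ j,
          (if i < j then y i ^ 2 * x j ^ 2 + y j ^ 2 * x i ^ 2 else 0)) := by
        rw [Finset.mul_sum, Real.exp_sum]
        apply Finset.prod_congr rfl
        intro i _
        rw [Finset.mul_sum, Real.exp_sum]
    _ ≤ Real.exp (8 * lam ^ 2 * ((∑ i, y i ^ 2) * ∑ i, x i ^ 2)) := by
        apply Real.exp_le_exp.2
        apply mul_le_mul_of_nonneg_left _ (by positivity)
        have h2 : ∑ i, ∑ j, (if i < j then y i ^ 2 * x j ^ 2 + y j ^ 2 * x i ^ 2 else 0) =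
            ∑ i, ∑ j, ((if i < j then y i ^ 2 * x j ^ 2 else 0) +
              (if j < i then y i ^ 2 * x j ^ 2 else 0)) := by
          have h3 : ∑ i, ∑ j, (if j < i then y i ^ 2 * x j ^ 2 else 0) =
              ∑ i, ∑ j, (if i < j then y j ^ 2 * x i ^ 2 else 0) := by
            rw [Finset.sum_comm]
          simp only [Finset.sum_add_distrib]
          rw [h3]
          simp only [← Finset.sum_add_distrib]
          apply Finset.sum_congr rfl
          intro i _
          apply Finset.sum_congr rfl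
          intro j _
          split_ifs <;> ring
        rw [h2, Finset.sum_mul_sum]
        apply Finset.sum_le_sum
        intro i _
        apply Finset.sum_le_sum
        intro j _
        have hp : 0 ≤ y i ^ 2 * x j ^ 2 := by positivity
        rcases lt_trichotomy i j with hij | hij | hij
        · have h2 : ¬ j < i := not_lt_of_gt hij
          simp only [hij, h2, if_true, if_false]
          linarith
        · subst hij
          simp only [lt_irrefl, if_false]
          linarith
        · have h2 : ¬ i < j := not_lt_of_gt hij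
          simp only [hij, h2, if_true, if_false]
          linarith

/-- the sum of a function over the entries in one row and column -/
theorem sum_cross {n : ℕ} (F : Fin n → Fin n → ℝ) (i : Fin n) :
    ∑ a, ∑ b, (if a < b then (if a = i ∨ b = i then F a b else 0) else 0) =
      ∑ j, (if i < j then F i j else if j < i then F j i else 0) := by
  have h : ∀ a b : Fin n, (if a < b then (if a = i ∨ b = i then F a b else 0) else 0) =
      (if a = i then (if i < b then F i b else 0) else 0) +
      (if b = i then (if a < i then F a i else 0) else 0) := by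
    intro a b
    by_cases ha : a = i <;> by_cases hb : b = i
    · simp [ha, hb]
    · simp [ha, hb]
    · simp [ha, hb]
    · simp [ha, hb]
  simp only [h, Finset.sum_add_distrib]
  have h1 : ∑ x : Fin n, ∑ x_1 : Fin n, (if x = i then (if i < x_1 then F i x_1 else 0) else 0) =
      ∑ b, (if i < b then F i b else 0) := by
    rw [Finset.sum_comm]
    exact Finset.sum_congr rfl (fun j _ => by rw [Finset.sum_ite_eq' Finset.univ i]; simp)
  have h2 : ∑ x : Fin n, ∑ x_1 : Fin n, (if x_1 = i then (if x < i then F x i else 0) else 0) =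
      ∑ a, (if a < i then F a i else 0) := by
    exact Finset.sum_congr rfl (fun j _ => by rw [Finset.sum_ite_eq' Finset.univ i]; simp)
  rw [h1, h2, ← Finset.sum_add_distrib]
  apply Finset.sum_congr rfl
  intro j _
  rcases lt_trichotomy i j with hij | hij | hij
  · have h2 : ¬ j < i := not_lt_of_gt hij
    simp [hij, h2]
  · subst hij
    simp
  · have h2 : ¬ i < j := not_lt_of_gt hij
    simp [hij, h2]

theorem row_mgf {n : ℕ} {δ : ℝ} (h0 : 0 ≤ δ) (h1 : δ ≤ 1 / 2) (c : ℝ) (hc : 0 ≤ c) (i : Fin n) :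
    ∑ s : Fin n → Fin n → Bool, wt δ s * Real.exp (-(c * ∑ j, Am s i j)) ≤
      Real.exp ((n - 1) * (c ^ 2 / 2 - 2 * δ * c * (1 - c ^ 2 / 2))) := by
  have e : ∀ s : Fin n → Fin n → Bool, -(c * ∑ j, Am s i j) =
      ∑ a, ∑ b, (fun (a b : Fin n) (t : Bool) => (if a < b then
        (if a = i ∨ b = i then -(c * sg t) else 0) else 0)) a b (s a b) := by
    intro s
    simp only
    rw [sum_cross (fun a b => -(c * sg (s a b))) i, Finset.mul_sum, ← Finset.sum_neg_distrib]
    apply Finset.sum_congr rfl
    intro j _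
    unfold Am
    split_ifs <;> ring
  simp only [e]
  rw [sum_wt_exp δ (fun (a b : Fin n) (t : Bool) => (if a < b then
        (if a = i ∨ b = i then -(c * sg t) else 0) else 0))]
  set φ := c ^ 2 / 2 - 2 * δ * c * (1 - c ^ 2 / 2) with hφ
  have hg : Real.cosh c - 2 * δ * Real.sinh c ≤ Real.exp φ := by
    have g1 : Real.cosh c ≤ Real.exp (c ^ 2 / 2) := Real.cosh_le_exp_half_sq c
    have g2 : c ≤ Real.sinh c := Real.self_le_sinh_iff.2 hc
    have g3 : 2 * δ * c ≤ 2 * δ * Real.sinh c := mul_le_mul_of_nonneg_left g2 (by linarith)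
    have g4 : 1 - c ^ 2 / 2 ≤ Real.exp (-(c ^ 2 / 2)) := by
      have := Real.add_one_le_exp (-(c ^ 2 / 2))
      linarith
    have g5 : Real.exp (c ^ 2 / 2) - 2 * δ * c =
        Real.exp (c ^ 2 / 2) * (1 - 2 * δ * c * Real.exp (-(c ^ 2 / 2))) := by
      have hh : Real.exp (c ^ 2 / 2) * Real.exp (-(c ^ 2 / 2)) = 1 := by
        rw [← Real.exp_add]; simp
      linear_combination (2 * δ * c) * hh
    have g6 : 1 - 2 * δ * c * Real.exp (-(c ^ 2 / 2)) ≤
        Real.exp (-(2 * δ * c * (1 - c ^ 2 / 2))) := by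
      have t1 := Real.add_one_le_exp (-(2 * δ * c * Real.exp (-(c ^ 2 / 2))))
      have t2 : Real.exp (-(2 * δ * c * Real.exp (-(c ^ 2 / 2)))) ≤
          Real.exp (-(2 * δ * c * (1 - c ^ 2 / 2))) := by
        apply Real.exp_le_exp.2
        have := mul_le_mul_of_nonneg_left g4 (show 0 ≤ 2 * δ * c by positivity)
        linarith
      linarith
    calc Real.cosh c - 2 * δ * Real.sinh c ≤ Real.exp (c ^ 2 / 2) - 2 * δ * c := by linarith
      _ = Real.exp (c ^ 2 / 2) * (1 - 2 * δ * c * Real.exp (-(c ^ 2 / 2))) := g5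
      _ ≤ Real.exp (c ^ 2 / 2) * Real.exp (-(2 * δ * c * (1 - c ^ 2 / 2))) :=
          mul_le_mul_of_nonneg_left g6 (Real.exp_pos _).le
      _ = Real.exp φ := by rw [← Real.exp_add]; rw [hφ]; ring_nf
  have hb : ∀ a b : Fin n, ∑ t : Bool, wq δ a b t * Real.exp (if a < b then
        (if a = i ∨ b = i then -(c * sg t) else 0) else 0) ≤
        Real.exp (if a < b then (if a = i ∨ b = i then φ else 0) else 0) := by
    intro a b
    rw [Fintype.sum_bool]
    unfold wq sg
    by_cases hab : a < b
    · simp only [hab, if_true]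
      have e1 : (if (false : Bool) = true then (1 / 2 : ℝ) + δ else 1 / 2 - δ) = 1 / 2 - δ := by
        simp
      have e2 : (if (false : Bool) = true then (1 : ℝ) else -1) = -1 := by simp
      rw [e1, e2]
      by_cases hi : a = i ∨ b = i
      · simp only [hi, if_true]
        have e3 : (1 / 2 + δ) * Real.exp (-(c * 1)) + (1 / 2 - δ) * Real.exp (-(c * -1)) =
            Real.cosh c - 2 * δ * Real.sinh c := by
          rw [Real.cosh_eq, Real.sinh_eq]
          ring_nf
        rw [e3]
        exact hg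
      · simp only [hi, if_false, Real.exp_zero]
        linarith
    · simp only [hab, if_false]
      norm_num
  calc ∏ a, ∏ b, ∑ t : Bool, wq δ a b t * Real.exp (if a < b then
        (if a = i ∨ b = i then -(c * sg t) else 0) else 0) ≤
        ∏ a, ∏ b, Real.exp (if a < b then (if a = i ∨ b = i then φ else 0) else 0) := by
        apply Finset.prod_le_prod
        · intro i _
          apply Finset.prod_nonneg
          intro j _
          apply Finset.sum_nonneg
          intro b _
          exact mul_nonneg (wq_nonneg h0 h1 i j b) (Real.exp_pos _).le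
        · intro a _
          apply Finset.prod_le_prod
          · intro j _
            apply Finset.sum_nonneg
            intro b _
            exact mul_nonneg (wq_nonneg h0 h1 a j b) (Real.exp_pos _).le
          · intro b _
            exact hb a b
    _ = Real.exp (∑ a, ∑ b, (if a < b then (if a = i ∨ b = i then φ else 0) else 0)) := by
        rw [Real.exp_sum]
        apply Finset.prod_congr rfl
        intro i _
        rw [Real.exp_sum]
    _ = Real.exp ((n - 1) * φ) := by
        congr 1
        rw [sum_cross (fun _ _ => φ) i]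
        have h2 : ∀ j : Fin n, (if i < j then φ else if j < i then φ else 0) =
            φ - (if i = j then φ else 0) := by
          intro j
          rcases lt_trichotomy i j with hij | hij | hij
          · have h2 : ¬ i = j := ne_of_lt hij
            simp [hij, h2]
          · subst hij
            simp
          · have h2 : ¬ i < j := not_lt_of_gt hij
            have h3 : ¬ i = j := ne_of_gt hij
            simp [hij, h2, h3]
        simp only [h2, Finset.sum_sub_distrib, Finset.sum_const, Finset.card_univ,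
          Fintype.card_fin, nsmul_eq_mul, Finset.sum_ite_eq, Finset.mem_univ, if_true]
        ring

/-- Markov's inequality -/
theorem markov {n : ℕ} {δ : ℝ} (h0 : 0 ≤ δ) (h1 : δ ≤ 1 / 2)
    (E : (Fin n → Fin n → Bool) → Prop) [DecidablePred E] (Y : (Fin n → Fin n → Bool) → ℝ)
    (hY0 : ∀ s, 0 ≤ Y s) (hY : ∀ s, E s → 1 ≤ Y s) :
    ∑ s, (if E s then wt δ s else 0) ≤ ∑ s, wt δ s * Y s := by
  apply Finset.sum_le_sum
  intro s _
  have hw := wt_nonneg h0 h1 s
  by_cases h : E s
  · rw [if_pos h]
    have := mul_le_mul_of_nonneg_left (hY s h) hw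
    linarith
  · rw [if_neg h]
    exact mul_nonneg hw (hY0 s)

end Pool.Agent.Y986.GS
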