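import Pool.Agent.Y986.GS.Crit
import Pool.Agent.Y986.GS.Prob

/-!
Global synchrony of random signed matrices: assembly.
-/

namespace Pool.Agent.Y986.GS

open Finset Filter Topology

theorem Am_diag {n : ℕ} (s : Fin n → Fin n → Bool) (i : Fin n) : Am s i i = 0 := by
  unfold Am; simp

theorem Am_symm {n : ℕ} (s : Fin n → Fin n → Bool) (i j : Fin n) : Am s i j = Am s j i := by
  unfold Am
  rcases lt_trichotomy i j with hij | hij | hij
  · have h2 : ¬ j < i := not_lt_of_gt hij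
    simp [hij, h2]
  · subst hij; rfl
  · have h2 : ¬ i < j := not_lt_of_gt hij
    simp [hij, h2]

/-- the good event -/
def Good {n : ℕ} (s : Fin n → Fin n → Bool) : Prop :=
  ∀ θ : Fin n → ℝ, IsLocalMin (en (Am s)) θ → ∀ i j, ∃ k : ℤ, θ i - θ j = 2 * Real.pi * (k : ℝ)

theorem good_of {n : ℕ} (δ κ t : ℝ) (hn0 : 0 < n) (hδ : 0 < δ) (hκ : 0 < κ)
    (hκ2 : κ ≤ 1 / 2) (hn : 12 ≤ κ * n) (ht0 : 0 ≤ t) (ht : 64 / 47 * t ≤ κ / 30 * (2 * δ) * n)
    (s : Fin n → Fin n → Bool)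
    (hb : ∀ k ∈ K n, ∀ l ∈ K n,
      |bil (Wm δ s) (fun i => (l i : ℝ)) (fun i => (k i : ℝ))| ≤ 16 * n * t)
    (hD : ∀ i, κ * (2 * δ) * n ≤ ∑ j, Am s i j) : Good s := by
  intro θ hθ
  apply sync (Am s) (2 * δ) (64 / 47 * t) κ (by positivity) hκ hκ2 hn (by positivity) ht
    (Am_diag s) (Am_symm s) _ hD θ hθ
  intro x
  have := net_bound hn0 (Wm δ s) t ht0 hb x
  exact this

theorem double_single {α : Type*} (S : Finset α) (f : α → α → ℝ) (hf : ∀ a b, 0 ≤ f a b)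
    {a b : α} (ha : a ∈ S) (hb : b ∈ S) : f a b ≤ ∑ a ∈ S, ∑ b ∈ S, f a b :=
  (Finset.single_le_sum (f := fun b => f a b) (fun b _ => hf a b) hb).trans
    (Finset.single_le_sum (f := fun a => ∑ b ∈ S, f a b)
      (fun a _ => Finset.sum_nonneg (fun b _ => hf a b)) ha)

/-- the integer vector as a real vector -/
def rv {n : ℕ} (k : Fin n → ℤ) : Fin n → ℝ := fun i => (k i : ℝ)

/-- the first test function, one term -/
noncomputable def T1 {n : ℕ} (δ lam m : ℝ) (s : Fin n → Fin n → Bool) (k l : Fin n → ℤ) : ℝ :=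
  Real.exp (-(lam * m)) * (Real.exp (lam * bil (Wm δ s) (rv l) (rv k)) +
    Real.exp ((-lam) * bil (Wm δ s) (rv l) (rv k)))

/-- the second test function, one term -/
noncomputable def T2 {n : ℕ} (c m : ℝ) (s : Fin n → Fin n → Bool) (i : Fin n) : ℝ :=
  Real.exp (c * m) * Real.exp (-(c * ∑ j, Am s i j))

theorem T1_nonneg {n : ℕ} (δ lam m : ℝ) (s : Fin n → Fin n → Bool) (k l : Fin n → ℤ) :
    0 ≤ T1 δ lam m s k l := by unfold T1; positivity

theorem T2_nonneg {n : ℕ} (c m : ℝ) (s : Fin n → Fin n → Bool) (i : Fin n) :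
    0 ≤ T2 c m s i := by unfold T2; positivity

theorem one_le_T1 {n : ℕ} (δ lam m : ℝ) (hlam : 0 < lam) (s : Fin n → Fin n → Bool)
    (k l : Fin n → ℤ) (h : m < |bil (Wm δ s) (rv l) (rv k)|) : 1 ≤ T1 δ lam m s k l := by
  unfold T1
  set B := bil (Wm δ s) (rv l) (rv k) with hB
  have h3 : Real.exp (lam * m) ≤ Real.exp (lam * B) + Real.exp ((-lam) * B) := by
    rcases le_or_gt 0 B with hB0 | hB0
    · rw [abs_of_nonneg hB0] at h
      have : Real.exp (lam * m) ≤ Real.exp (lam * B) :=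
        Real.exp_le_exp.2 (mul_le_mul_of_nonneg_left h.le hlam.le)
      linarith [Real.exp_pos ((-lam) * B)]
    · rw [abs_of_neg hB0] at h
      have : Real.exp (lam * m) ≤ Real.exp ((-lam) * B) := by
        apply Real.exp_le_exp.2
        have := mul_le_mul_of_nonneg_left h.le hlam.le
        linarith
      linarith [Real.exp_pos (lam * B)]
  have h4 : Real.exp (-(lam * m)) * Real.exp (lam * m) = 1 := by
    rw [← Real.exp_add]; simp
  calc (1 : ℝ) = Real.exp (-(lam * m)) * Real.exp (lam * m) := h4.symm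
    _ ≤ _ := mul_le_mul_of_nonneg_left h3 (Real.exp_pos _).le

theorem one_le_T2 {n : ℕ} (c m : ℝ) (hc : 0 ≤ c) (s : Fin n → Fin n → Bool) (i : Fin n)
    (h : ∑ j, Am s i j < m) : 1 ≤ T2 c m s i := by
  unfold T2
  rw [← Real.exp_add]
  apply Real.one_le_exp
  have := mul_le_mul_of_nonneg_left h.le hc
  linarith

theorem E1 {n : ℕ} (hn0 : 0 < n) {δ : ℝ} (hδ : 0 ≤ δ) (hδ2 : δ ≤ 1 / 2) (t : ℝ)
    (k l : Fin n → ℤ) (hk : k ∈ K n) (hl : l ∈ K n) :
    ∑ s, wt δ s * T1 δ (1 / Real.sqrt n) (16 * n * t) s k l ≤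
      2 * Real.exp (3528 * n - 16 * Real.sqrt n * t) := by
  have hn' : (0 : ℝ) < n := by exact_mod_cast hn0
  have hr : 0 < Real.sqrt n := Real.sqrt_pos.2 hn'
  have hr2 : Real.sqrt n ^ 2 = n := Real.sq_sqrt hn'.le
  obtain ⟨lam, hlam⟩ : ∃ lam : ℝ, lam = 1 / Real.sqrt n := ⟨_, rfl⟩
  rw [← hlam]
  have m1 := bil_mgf hδ hδ2 lam (rv l) (rv k)
  have m2 := bil_mgf hδ hδ2 (-lam) (rv l) (rv k)
  rw [mem_K] at hk hl
  have hk' : ∑ i, (rv k i) ^ 2 ≤ 21 * n := by unfold rv; exact_mod_cast hk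
  have hl' : ∑ i, (rv l i) ^ 2 ≤ 21 * n := by unfold rv; exact_mod_cast hl
  have hk0 : 0 ≤ ∑ i, (rv k i) ^ 2 := Finset.sum_nonneg (fun i _ => sq_nonneg _)
  have hprod : (∑ i, (rv l i) ^ 2) * ∑ i, (rv k i) ^ 2 ≤ (21 * n) * (21 * n) :=
    mul_le_mul hl' hk' hk0 (by positivity)
  have hlam2 : lam ^ 2 = 1 / n := by rw [hlam, div_pow, hr2, one_pow]
  have hle : 8 * lam ^ 2 * ((∑ i, (rv l i) ^ 2) * ∑ i, (rv k i) ^ 2) ≤ 3528 * n := by
    calc 8 * lam ^ 2 * ((∑ i, (rv l i) ^ 2) * ∑ i, (rv k i) ^ 2) ≤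
          8 * lam ^ 2 * ((21 * n) * (21 * n)) :=
          mul_le_mul_of_nonneg_left hprod (by positivity)
      _ = 3528 * n := by
          rw [hlam2]
          field_simp
          norm_num
  have m1' := m1.trans (Real.exp_le_exp.2 hle)
  rw [neg_sq] at m2
  have m2' := m2.trans (Real.exp_le_exp.2 hle)
  have hlt : lam * (16 * n * t) = 16 * Real.sqrt n * t := by
    have h5 : lam * n = Real.sqrt n := by
      rw [hlam, div_mul_eq_mul_div, one_mul, div_eq_iff hr.ne', ← sq, hr2]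
    calc lam * (16 * n * t) = 16 * (lam * n) * t := by ring
      _ = _ := by rw [h5]
  have e1 : ∑ s, wt δ s * T1 δ lam (16 * n * t) s k l = Real.exp (-(lam * (16 * n * t))) *
      ((∑ s, wt δ s * Real.exp (lam * bil (Wm δ s) (rv l) (rv k))) +
        ∑ s, wt δ s * Real.exp ((-lam) * bil (Wm δ s) (rv l) (rv k))) := by
    rw [← Finset.sum_add_distrib, Finset.mul_sum]
    apply Finset.sum_congr rfl
    intro s _
    unfold T1
    ring
  rw [e1, hlt]
  calc Real.exp (-(16 * Real.sqrt n * t)) *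
      ((∑ s, wt δ s * Real.exp (lam * bil (Wm δ s) (rv l) (rv k))) +
        ∑ s, wt δ s * Real.exp ((-lam) * bil (Wm δ s) (rv l) (rv k))) ≤
      Real.exp (-(16 * Real.sqrt n * t)) * (Real.exp (3528 * n) + Real.exp (3528 * n)) :=
        mul_le_mul_of_nonneg_left (add_le_add m1' m2') (Real.exp_pos _).le
    _ = 2 * Real.exp (3528 * n - 16 * Real.sqrt n * t) := by
        rw [sub_eq_add_neg, Real.exp_add]
        ring

theorem E1sum {n : ℕ} (hn0 : 0 < n) {δ : ℝ} (hδ : 0 ≤ δ) (hδ2 : δ ≤ 1 / 2) (t : ℝ) :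
    ∑ s, wt δ s * (∑ k ∈ K n, ∑ l ∈ K n, T1 δ (1 / Real.sqrt n) (16 * n * t) s k l) ≤
      2 * Real.exp (3574 * n - 16 * Real.sqrt n * t) := by
  have e1 : ∑ s, wt δ s * (∑ k ∈ K n, ∑ l ∈ K n, T1 δ (1 / Real.sqrt n) (16 * n * t) s k l) =
      ∑ k ∈ K n, ∑ l ∈ K n, ∑ s, wt δ s * T1 δ (1 / Real.sqrt n) (16 * n * t) s k l := by
    simp only [Finset.mul_sum]
    rw [Finset.sum_comm]
    apply Finset.sum_congr rfl
    intro k _
    rw [Finset.sum_comm]
  rw [e1]
  calc _ ≤ ∑ k ∈ K n, ∑ l ∈ K n, 2 * Real.exp (3528 * n - 16 * Real.sqrt n * t) :=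
        Finset.sum_le_sum (fun k hk => Finset.sum_le_sum (fun l hl => E1 hn0 hδ hδ2 t k l hk hl))
    _ = ((K n).card : ℝ) * (((K n).card : ℝ) *
        (2 * Real.exp (3528 * n - 16 * Real.sqrt n * t))) := by
        rw [Finset.sum_const, Finset.sum_const, nsmul_eq_mul, nsmul_eq_mul]
    _ ≤ Real.exp (23 * n) * (Real.exp (23 * n) *
        (2 * Real.exp (3528 * n - 16 * Real.sqrt n * t))) := by
        have hc := card_K n
        apply mul_le_mul hc _ (by positivity) (by positivity)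
        exact mul_le_mul_of_nonneg_right hc (by positivity)
    _ = 2 * Real.exp (3574 * n - 16 * Real.sqrt n * t) := by
        have : (3574 * n - 16 * Real.sqrt n * t) =
            23 * n + (23 * n + (3528 * n - 16 * Real.sqrt n * t)) := by ring
        rw [this, Real.exp_add, Real.exp_add]
        ring

theorem E2sum {n : ℕ} {δ : ℝ} (hδ : 0 ≤ δ) (hδ2 : δ ≤ 1 / 2) (c m : ℝ) (hc : 0 ≤ c) :
    ∑ s : Fin n → Fin n → Bool, wt δ s * (∑ i, T2 c m s i) ≤
      n * Real.exp (c * m + (n - 1) * (c ^ 2 / 2 - 2 * δ * c * (1 - c ^ 2 / 2))) := by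
  have e1 : ∑ s : Fin n → Fin n → Bool, wt δ s * (∑ i, T2 c m s i) =
      ∑ i : Fin n, Real.exp (c * m) * ∑ s, wt δ s * Real.exp (-(c * ∑ j, Am s i j)) := by
    simp only [Finset.mul_sum]
    rw [Finset.sum_comm]
    apply Finset.sum_congr rfl
    intro k _
    apply Finset.sum_congr rfl
    intro s _
    unfold T2
    simp only [Finset.mul_sum]
    ring
  rw [e1]
  calc ∑ i : Fin n, Real.exp (c * m) *
      ∑ s, wt δ s * Real.exp (-(c * ∑ j, Am s i j)) ≤
      ∑ i : Fin n, Real.exp (c * m) *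
        Real.exp ((n - 1) * (c ^ 2 / 2 - 2 * δ * c * (1 - c ^ 2 / 2))) :=
        Finset.sum_le_sum (fun i _ => mul_le_mul_of_nonneg_left (row_mgf hδ hδ2 c hc i)
          (Real.exp_pos _).le)
    _ = _ := by
        rw [Finset.sum_const, Finset.card_univ, Fintype.card_fin, nsmul_eq_mul, Real.exp_add]

open scoped Classical in
/-- the probability of the bad event -/
theorem prob_bad {n : ℕ} (δ κ t : ℝ) (hn0 : 0 < n) (hδ : 0 < δ) (hδ2 : δ ≤ 1 / 2) (hκ : 0 < κ)
    (hκ2 : κ ≤ 1 / 2) (hn : 12 ≤ κ * n) (ht0 : 0 ≤ t) (ht : 64 / 47 * t ≤ κ / 30 * (2 * δ) * n)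
    (c : ℝ) (hc : 0 ≤ c) :
    ∑ s : Fin n → Fin n → Bool, (if ¬ Good s then wt δ s else 0) ≤
      2 * Real.exp (3574 * n - 16 * Real.sqrt n * t) +
      n * Real.exp (c * (κ * (2 * δ) * n) + (n - 1) * (c ^ 2 / 2 - 2 * δ * c * (1 - c ^ 2 / 2))) := by
  have hn' : (0 : ℝ) < n := by exact_mod_cast hn0
  have hr : 0 < Real.sqrt n := Real.sqrt_pos.2 hn'
  have hmark : ∑ s : Fin n → Fin n → Bool, (if ¬ Good s then wt δ s else 0) ≤
      ∑ s, wt δ s * ((∑ k ∈ K n, ∑ l ∈ K n, T1 δ (1 / Real.sqrt n) (16 * n * t) s k l) +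
        ∑ i, T2 c (κ * (2 * δ) * n) s i) := by
    apply markov hδ.le hδ2 (fun s => ¬ Good s)
    · intro s
      exact add_nonneg (Finset.sum_nonneg (fun k _ => Finset.sum_nonneg (fun l _ =>
        T1_nonneg _ _ _ _ _ _))) (Finset.sum_nonneg (fun i _ => T2_nonneg _ _ _ _))
    · intro s hs
      by_contra hcon
      apply hs
      apply good_of δ κ t hn0 hδ hκ hκ2 hn ht0 ht s
      · intro k hk l hl
        by_contra hbad
        apply hcon
        have h1 := one_le_T1 δ (1 / Real.sqrt n) (16 * n * t) (by positivity) s k l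
          (not_le.1 hbad)
        have h2 := double_single (K n) (fun k l => T1 δ (1 / Real.sqrt n) (16 * n * t) s k l)
          (fun k l => T1_nonneg _ _ _ _ _ _) hk hl
        have h3 : 0 ≤ ∑ i, T2 c (κ * (2 * δ) * n) s i :=
          Finset.sum_nonneg (fun i _ => T2_nonneg _ _ _ _)
        have h4 := h1.trans h2
        linarith
      · intro i
        by_contra hbad
        apply hcon
        have h1 := one_le_T2 c (κ * (2 * δ) * n) hc s i (not_le.1 hbad)
        have h2 := Finset.single_le_sum (f := fun i => T2 c (κ * (2 * δ) * n) s i)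
          (fun i _ => T2_nonneg _ _ _ _) (Finset.mem_univ i)
        have h3 : 0 ≤ ∑ k ∈ K n, ∑ l ∈ K n, T1 δ (1 / Real.sqrt n) (16 * n * t) s k l :=
          Finset.sum_nonneg (fun k _ => Finset.sum_nonneg (fun l _ => T1_nonneg _ _ _ _ _ _))
        have h4 := h1.trans h2
        linarith
  refine hmark.trans ?_
  have hsplit : ∑ s : Fin n → Fin n → Bool, wt δ s *
      ((∑ k ∈ K n, ∑ l ∈ K n, T1 δ (1 / Real.sqrt n) (16 * n * t) s k l) +
        ∑ i, T2 c (κ * (2 * δ) * n) s i) =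
      ∑ s : Fin n → Fin n → Bool, wt δ s *
        (∑ k ∈ K n, ∑ l ∈ K n, T1 δ (1 / Real.sqrt n) (16 * n * t) s k l) +
      ∑ s : Fin n → Fin n → Bool, wt δ s * ∑ i, T2 c (κ * (2 * δ) * n) s i := by
    rw [← Finset.sum_add_distrib]
    exact Finset.sum_congr rfl (fun s _ => by ring)
  rw [hsplit]
  exact add_le_add (E1sum hn0 hδ.le hδ2 t) (E2sum hδ.le hδ2 c _ hc)

end Pool.Agent.Y986.GS
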