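import Mathlib

/-!
The operator norm of a real matrix from its bilinear form on integer vectors; counting the
integer vectors of bounded length.
-/

namespace Pool.Agent.Y986.GS

open Finset

/-- the bilinear form of a matrix -/
def bil {n : ℕ} (W : Fin n → Fin n → ℝ) (y x : Fin n → ℝ) : ℝ := ∑ i, ∑ j, W i j * y i * x j

theorem sum_half_pow (m : ℕ) :
    ∑ a ∈ Finset.Icc (-(m : ℤ)) m, ((1 : ℝ) / 2) ^ a.natAbs = 3 - 2 * (1 / 2) ^ m := by
  induction m with
  | zero => norm_num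
  | succ m ih =>
    have h : Finset.Icc (-((m + 1 : ℕ) : ℤ)) ((m + 1 : ℕ) : ℤ) =
        insert (-((m + 1 : ℕ) : ℤ)) (insert ((m + 1 : ℕ) : ℤ) (Finset.Icc (-(m : ℤ)) m)) := by
      ext a
      simp only [Finset.mem_Icc, Finset.mem_insert]
      push_cast
      omega
    rw [h, Finset.sum_insert, Finset.sum_insert, ih]
    · have h1 : (-((m + 1 : ℕ) : ℤ)).natAbs = m + 1 := by omega
      have h2 : (((m + 1 : ℕ) : ℤ)).natAbs = m + 1 := by omega
      rw [h1, h2, pow_succ]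
      ring
    · rw [Finset.mem_Icc]; push_cast; omega
    · rw [Finset.mem_insert, Finset.mem_Icc]; push_cast; omega

/-- the integer vectors of squared length at most `21 n` -/
noncomputable def K (n : ℕ) : Finset (Fin n → ℤ) :=
  (Fintype.piFinset (fun _ : Fin n => Finset.Icc (-((21 * n : ℕ) : ℤ)) ((21 * n : ℕ) : ℤ))).filter
    (fun k => ∑ i, (k i) ^ 2 ≤ 21 * (n : ℤ))

theorem mem_K {n : ℕ} {k : Fin n → ℤ} : k ∈ K n ↔ ∑ i, (k i) ^ 2 ≤ 21 * (n : ℤ) := by
  unfold K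
  rw [Finset.mem_filter, Fintype.mem_piFinset]
  constructor
  · exact fun h => h.2
  · intro h
    refine ⟨fun i => ?_, h⟩
    have h1 : (k i) ^ 2 ≤ ∑ i, (k i) ^ 2 :=
      Finset.single_le_sum (f := fun i => (k i) ^ 2) (fun i _ => sq_nonneg _) (Finset.mem_univ i)
    rw [Finset.mem_Icc]
    push_cast
    have h2 : (k i) ^ 2 ≤ 21 * (n : ℤ) := h1.trans h
    have h3 : |k i| ≤ (k i) ^ 2 := by
      have := Int.natAbs_le_self_sq (k i)
      rwa [Int.natCast_natAbs] at this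
    have h4 := abs_le.1 (h3.trans h2)
    exact h4

theorem card_K (n : ℕ) : ((K n).card : ℝ) ≤ Real.exp (23 * n) := by
  have h1 : ((K n).card : ℝ) ≤ ∑ k ∈ K n, Real.exp (21 * n) * ∏ i, ((1 : ℝ) / 2) ^ (k i).natAbs := by
    rw [← nsmul_one, ← Finset.sum_const]
    apply Finset.sum_le_sum
    intro k hk
    rw [mem_K] at hk
    have h2 : ∏ i, ((1 : ℝ) / 2) ^ (k i).natAbs = (1 / 2) ^ (∑ i, (k i).natAbs) := by
      rw [Finset.prod_pow_eq_pow_sum]
    rw [h2]
    have h3 : ∑ i, (k i).natAbs ≤ 21 * n := by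
      have : ((∑ i, (k i).natAbs : ℕ) : ℤ) ≤ 21 * n := by
        push_cast
        refine le_trans (Finset.sum_le_sum (fun i _ => ?_)) hk
        have := Int.natAbs_le_self_sq (k i)
        rwa [Int.natCast_natAbs] at this
      exact_mod_cast this
    have h4 : ((1 : ℝ) / 2) ^ (21 * n) ≤ (1 / 2) ^ (∑ i, (k i).natAbs) :=
      pow_le_pow_of_le_one (by norm_num) (by norm_num) h3
    have h5 : (1 : ℝ) ≤ Real.exp (21 * n) * (1 / 2) ^ (21 * n) := by
      have e : Real.exp (21 * (n : ℝ)) = (Real.exp 1) ^ (21 * n) := by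
        rw [← Real.exp_nat_mul]; push_cast; ring_nf
      rw [e, ← mul_pow]
      apply one_le_pow₀
      have := Real.add_one_le_exp (1 : ℝ)
      linarith
    exact h5.trans (mul_le_mul_of_nonneg_left h4 (Real.exp_pos _).le)
  have h6 : ∑ k ∈ K n, Real.exp (21 * n) * ∏ i, ((1 : ℝ) / 2) ^ (k i).natAbs ≤
      Real.exp (21 * n) * 3 ^ n := by
    rw [← Finset.mul_sum]
    apply mul_le_mul_of_nonneg_left _ (Real.exp_pos _).le
    calc ∑ k ∈ K n, ∏ i, ((1 : ℝ) / 2) ^ (k i).natAbs ≤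
        ∑ k ∈ Fintype.piFinset (fun _ : Fin n =>
          Finset.Icc (-((21 * n : ℕ) : ℤ)) ((21 * n : ℕ) : ℤ)),
          ∏ i, ((1 : ℝ) / 2) ^ (k i).natAbs := by
          apply Finset.sum_le_sum_of_subset_of_nonneg (Finset.filter_subset _ _)
          intro k _ _
          positivity
      _ = ∏ i : Fin n, ∑ a ∈ Finset.Icc (-((21 * n : ℕ) : ℤ)) ((21 * n : ℕ) : ℤ),
          ((1 : ℝ) / 2) ^ a.natAbs := by
          rw [Finset.prod_univ_sum]
      _ ≤ ∏ i : Fin n, (3 : ℝ) := by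
          apply Finset.prod_le_prod
          · intro i _; exact Finset.sum_nonneg (fun a _ => by positivity)
          · intro i _
            rw [sum_half_pow]
            have : (0 : ℝ) ≤ 2 * (1 / 2) ^ (21 * n) := by positivity
            linarith
      _ = 3 ^ n := by simp
  refine h1.trans (h6.trans ?_)
  have h7 : (3 : ℝ) ^ n ≤ Real.exp (2 * n) := by
    have e : Real.exp (2 * (n : ℝ)) = (Real.exp 2) ^ n := by
      rw [← Real.exp_nat_mul]; ring_nf
    rw [e]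
    apply pow_le_pow_left₀ (by norm_num)
    have := Real.add_one_le_exp (2 : ℝ)
    linarith
  calc Real.exp (21 * n) * 3 ^ n ≤ Real.exp (21 * n) * Real.exp (2 * n) :=
        mul_le_mul_of_nonneg_left h7 (Real.exp_pos _).le
    _ = Real.exp (23 * n) := by rw [← Real.exp_add]; ring_nf

theorem bil_add_left {n : ℕ} (W : Fin n → Fin n → ℝ) (y y' x : Fin n → ℝ) :
    bil W y x = bil W (fun i => y i - y' i) x + bil W y' x := by
  unfold bil
  rw [← Finset.sum_add_distrib]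
  apply Finset.sum_congr rfl
  intro i _
  rw [← Finset.sum_add_distrib]
  exact Finset.sum_congr rfl (fun j _ => by ring)

theorem bil_add_right {n : ℕ} (W : Fin n → Fin n → ℝ) (y x x' : Fin n → ℝ) :
    bil W y x = bil W y (fun i => x i - x' i) + bil W y x' := by
  unfold bil
  rw [← Finset.sum_add_distrib]
  apply Finset.sum_congr rfl
  intro i _
  rw [← Finset.sum_add_distrib]
  exact Finset.sum_congr rfl (fun j _ => by ring)

/-- the operator norm of a real matrix -/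
noncomputable def opn {n : ℕ} (W : Fin n → Fin n → ℝ) : ℝ :=
  ‖Matrix.toEuclideanCLM (𝕜 := ℝ) (Matrix.of W)‖

theorem norm_toLp_sq {n : ℕ} (x : Fin n → ℝ) :
    ‖(WithLp.toLp 2 x : EuclideanSpace ℝ (Fin n))‖ ^ 2 = ∑ i, x i ^ 2 := by
  rw [EuclideanSpace.norm_sq_eq]
  simp

theorem apply_toLp {n : ℕ} (W : Fin n → Fin n → ℝ) (x : Fin n → ℝ) (i : Fin n) :
    (Matrix.toEuclideanCLM (𝕜 := ℝ) (Matrix.of W) (WithLp.toLp 2 x)) i = ∑ j, W i j * x j := by
  rw [Matrix.toEuclideanCLM_toLp]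
  simp [Matrix.mulVec, dotProduct]

theorem opn_spec {n : ℕ} (W : Fin n → Fin n → ℝ) (x : Fin n → ℝ) :
    ∑ i, (∑ j, W i j * x j) ^ 2 ≤ (opn W) ^ 2 * ∑ j, x j ^ 2 := by
  have h := (Matrix.toEuclideanCLM (𝕜 := ℝ) (Matrix.of W)).le_opNorm (WithLp.toLp 2 x)
  have h2 := pow_le_pow_left₀ (norm_nonneg _) h 2
  rw [mul_pow, norm_toLp_sq x, EuclideanSpace.norm_sq_eq] at h2
  have h3 : ∑ i, ‖(Matrix.toEuclideanCLM (𝕜 := ℝ) (Matrix.of W) (WithLp.toLp 2 x)) i‖ ^ 2 =
      ∑ i, (∑ j, W i j * x j) ^ 2 := by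
    apply Finset.sum_congr rfl
    intro i _
    rw [apply_toLp, Real.norm_eq_abs, sq_abs]
  rw [h3] at h2
  exact h2

theorem bil_eq {n : ℕ} (W : Fin n → Fin n → ℝ) (y x : Fin n → ℝ) :
    bil W y x = ∑ i, y i * (∑ j, W i j * x j) := by
  unfold bil
  apply Finset.sum_congr rfl
  intro i _
  rw [Finset.mul_sum]
  exact Finset.sum_congr rfl (fun j _ => by ring)

theorem bil_le {n : ℕ} (W : Fin n → Fin n → ℝ) (y x : Fin n → ℝ) (a b : ℝ) (ha : 0 ≤ a)
    (hb : 0 ≤ b) (hy : ∑ i, y i ^ 2 ≤ a ^ 2) (hx : ∑ i, x i ^ 2 ≤ b ^ 2) :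
    |bil W y x| ≤ opn W * a * b := by
  have hM : 0 ≤ opn W := norm_nonneg _
  have h0 : 0 ≤ ∑ j, x j ^ 2 := Finset.sum_nonneg (fun j _ => sq_nonneg _)
  have h0' : 0 ≤ ∑ j, y j ^ 2 := Finset.sum_nonneg (fun j _ => sq_nonneg _)
  apply abs_le_of_sq_le_sq _ (by positivity)
  rw [bil_eq]
  calc (∑ i, y i * (∑ j, W i j * x j)) ^ 2 ≤
        (∑ i, y i ^ 2) * ∑ i, (∑ j, W i j * x j) ^ 2 := Finset.sum_mul_sq_le_sq_mul_sq _ _ _
    _ ≤ a ^ 2 * ((opn W) ^ 2 * b ^ 2) := by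
        apply mul_le_mul hy _ (Finset.sum_nonneg (fun j _ => sq_nonneg _)) (by positivity)
        exact (opn_spec W x).trans (mul_le_mul_of_nonneg_left hx (by positivity))
    _ = (opn W * a * b) ^ 2 := by ring

theorem exists_round {n : ℕ} (hn : 0 < n) (x : Fin n → ℝ) (hx : ∑ i, x i ^ 2 ≤ 1) :
    ∃ k ∈ K n, ∑ i, (x i - (k i : ℝ) / (4 * Real.sqrt n)) ^ 2 ≤ (1 / 8) ^ 2 ∧
      ∑ i, ((k i : ℝ) / (4 * Real.sqrt n)) ^ 2 ≤ (9 / 8) ^ 2 := by
  have hn' : (0 : ℝ) < n := by exact_mod_cast hn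
  have hr : 0 < Real.sqrt n := Real.sqrt_pos.2 hn'
  have hr2 : Real.sqrt n ^ 2 = n := Real.sq_sqrt hn'.le
  set k : Fin n → ℤ := fun i => round (4 * Real.sqrt n * x i) with hk
  have h1 : ∀ i, (x i - (k i : ℝ) / (4 * Real.sqrt n)) ^ 2 ≤ 1 / (64 * n) := by
    intro i
    have h := abs_sub_round (4 * Real.sqrt n * x i)
    have e : x i - (k i : ℝ) / (4 * Real.sqrt n) =
        (4 * Real.sqrt n * x i - (round (4 * Real.sqrt n * x i) : ℤ)) / (4 * Real.sqrt n) := by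
      rw [sub_div, mul_div_cancel_left₀ _ (by positivity)]
    rw [e, div_pow, mul_pow, hr2]
    have h2 : (4 * Real.sqrt n * x i - (round (4 * Real.sqrt n * x i) : ℤ)) ^ 2 ≤ (1 / 2) ^ 2 := by
      rw [← sq_abs]
      exact pow_le_pow_left₀ (abs_nonneg _) h 2
    rw [div_le_div_iff₀ (by positivity) (by positivity)]
    nlinarith
  have h2 : ∑ i, (x i - (k i : ℝ) / (4 * Real.sqrt n)) ^ 2 ≤ (1 / 8) ^ 2 := by
    calc ∑ i, (x i - (k i : ℝ) / (4 * Real.sqrt n)) ^ 2 ≤ ∑ _i : Fin n, 1 / (64 * (n : ℝ)) :=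
          Finset.sum_le_sum (fun i _ => h1 i)
      _ = (1 / 8) ^ 2 := by
          rw [Finset.sum_const, Finset.card_univ, Fintype.card_fin, nsmul_eq_mul]
          field_simp
          norm_num
  have h3 : ∑ i, ((k i : ℝ) / (4 * Real.sqrt n)) ^ 2 ≤ (9 / 8) ^ 2 := by
    calc ∑ i, ((k i : ℝ) / (4 * Real.sqrt n)) ^ 2 ≤
        ∑ i, (9 / 8 * x i ^ 2 + 9 * (x i - (k i : ℝ) / (4 * Real.sqrt n)) ^ 2) := by
          apply Finset.sum_le_sum
          intro i _
          nlinarith [sq_nonneg (x i + 8 * (x i - (k i : ℝ) / (4 * Real.sqrt n)))]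
      _ = 9 / 8 * ∑ i, x i ^ 2 + 9 * ∑ i, (x i - (k i : ℝ) / (4 * Real.sqrt n)) ^ 2 := by
          rw [Finset.sum_add_distrib, Finset.mul_sum, Finset.mul_sum]
      _ ≤ (9 / 8) ^ 2 := by nlinarith
  refine ⟨k, ?_, h2, h3⟩
  rw [mem_K]
  have h4 : ∑ i, (k i : ℝ) ^ 2 ≤ 21 * n := by
    have e : ∑ i, ((k i : ℝ) / (4 * Real.sqrt n)) ^ 2 = (∑ i, (k i : ℝ) ^ 2) / (16 * n) := by
      rw [Finset.sum_div]
      apply Finset.sum_congr rfl
      intro i _
      rw [div_pow, mul_pow, hr2]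
      norm_num
    rw [e, div_le_iff₀ (by positivity)] at h3
    nlinarith
  exact_mod_cast h4

theorem net_bound {n : ℕ} (hn : 0 < n) (W : Fin n → Fin n → ℝ) (t : ℝ) (ht : 0 ≤ t)
    (h : ∀ k ∈ K n, ∀ l ∈ K n, |bil W (fun i => (l i : ℝ)) (fun i => (k i : ℝ))| ≤ 16 * n * t)
    (x : Fin n → ℝ) :
    ∑ i, (∑ j, W i j * x j) ^ 2 ≤ (64 / 47 * t) ^ 2 * ∑ j, x j ^ 2 := by
  have hn' : (0 : ℝ) < n := by exact_mod_cast hn
  have hr : 0 < Real.sqrt n := Real.sqrt_pos.2 hn'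
  have hr2 : Real.sqrt n ^ 2 = n := Real.sq_sqrt hn'.le
  have hM : 0 ≤ opn W := norm_nonneg _
  have key : ∀ y x : Fin n → ℝ, ∑ i, y i ^ 2 ≤ 1 → ∑ i, x i ^ 2 ≤ 1 →
      bil W y x ≤ 17 / 64 * opn W + t := by
    intro y x hy hx
    obtain ⟨l, hl, hl1, hl2⟩ := exists_round hn y hy
    obtain ⟨k, hk, hk1, hk2⟩ := exists_round hn x hx
    have a1 := bil_le W (fun i => y i - (l i : ℝ) / (4 * Real.sqrt n)) x (1 / 8) 1 (by norm_num)
      (by norm_num) hl1 (by rw [one_pow]; exact hx)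
    have a2 := bil_le W (fun i => (l i : ℝ) / (4 * Real.sqrt n))
      (fun i => x i - (k i : ℝ) / (4 * Real.sqrt n)) (9 / 8) (1 / 8) (by norm_num)
      (by norm_num) hl2 hk1
    have a3 : bil W (fun i => (l i : ℝ) / (4 * Real.sqrt n)) (fun i => (k i : ℝ) / (4 * Real.sqrt n))
        = bil W (fun i => (l i : ℝ)) (fun i => (k i : ℝ)) / (16 * n) := by
      unfold bil
      rw [Finset.sum_div]
      apply Finset.sum_congr rfl
      intro i _
      rw [Finset.sum_div]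
      apply Finset.sum_congr rfl
      intro j _
      have : (16 : ℝ) * n = (4 * Real.sqrt n) * (4 * Real.sqrt n) := by
        calc (16 : ℝ) * n = 16 * Real.sqrt n ^ 2 := by rw [hr2]
          _ = _ := by ring
      rw [this]
      field_simp
    have a4 : bil W (fun i => (l i : ℝ)) (fun i => (k i : ℝ)) / (16 * n) ≤ t := by
      rw [div_le_iff₀ (by positivity)]
      have := (abs_le.1 (h k hk l hl)).2
      linarith
    rw [bil_add_left W y (fun i => (l i : ℝ) / (4 * Real.sqrt n)) x,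
      bil_add_right W (fun i => (l i : ℝ) / (4 * Real.sqrt n)) x
        (fun i => (k i : ℝ) / (4 * Real.sqrt n)), a3]
    have b1 := (abs_le.1 a1).2
    have b2 := (abs_le.1 a2).2
    linarith
  have hMle : opn W ≤ 17 / 64 * opn W + t := by
    unfold opn
    apply ContinuousLinearMap.opNorm_le_of_unit_norm
    · have : 0 ≤ 17 / 64 * opn W + t := by positivity
      exact this
    intro v hv
    change _ ≤ 17 / 64 * opn W + t
    set L := Matrix.toEuclideanCLM (𝕜 := ℝ) (Matrix.of W) with hL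
    rcases eq_or_ne (L v) 0 with h0 | h0
    · rw [h0, norm_zero]; positivity
    · have hpos : 0 < ‖L v‖ := norm_pos_iff.2 h0
      have hv' : ∑ i, (v i) ^ 2 ≤ 1 := by
        have := EuclideanSpace.norm_sq_eq v
        rw [hv] at this
        have e : ∑ i, ‖v i‖ ^ 2 = ∑ i, (v i) ^ 2 :=
          Finset.sum_congr rfl (fun i _ => by rw [Real.norm_eq_abs, sq_abs])
        rw [e] at this
        linarith
      have hLv : ∑ i, ((L v) i) ^ 2 = ‖L v‖ ^ 2 := by
        rw [EuclideanSpace.norm_sq_eq]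
        exact Finset.sum_congr rfl (fun i _ => by rw [Real.norm_eq_abs, sq_abs])
      have hy : ∑ i, ((L v) i / ‖L v‖) ^ 2 ≤ 1 := by
        have e : ∑ i, ((L v) i / ‖L v‖) ^ 2 = (∑ i, ((L v) i) ^ 2) / ‖L v‖ ^ 2 := by
          rw [Finset.sum_div]
          exact Finset.sum_congr rfl (fun i _ => by rw [div_pow])
        rw [e, hLv, div_self (by positivity)]
      have hk := key (fun i => (L v) i / ‖L v‖) (fun i => v i) hy hv'
      have e2 : bil W (fun i => (L v) i / ‖L v‖) (fun i => v i) = ‖L v‖ := by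
        rw [bil_eq]
        have e3 : ∀ i, ∑ j, W i j * v j = (L v) i := by
          intro i
          have := apply_toLp W (fun i => v i) i
          rw [← this]
        have e4 : ∑ i, (L v) i / ‖L v‖ * ∑ j, W i j * v j = (∑ i, ((L v) i) ^ 2) / ‖L v‖ := by
          rw [Finset.sum_div]
          apply Finset.sum_congr rfl
          intro i _
          rw [e3 i]
          ring
        rw [e4, hLv, sq, mul_div_assoc, div_self hpos.ne', mul_one]
      rw [e2] at hk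
      exact hk
  have hM2 : opn W ≤ 64 / 47 * t := by linarith
  refine (opn_spec W x).trans ?_
  apply mul_le_mul_of_nonneg_right _ (Finset.sum_nonneg (fun j _ => sq_nonneg _))
  exact pow_le_pow_left₀ hM hM2 2

end Pool.Agent.Y986.GS
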